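import Pool.Agent.U400.RT.Cop

set_option autoImplicit false
set_option linter.unusedSectionVars false

/-!
# Quartic fields without imaginary quadratic subfields
-/

open Module Matrix TensorProduct

noncomputable section

namespace Pool.Agent.U400.RT

open Pool.Agent.Y102 Pool.Agent.W516.DR Pool.Agent.H204R3.GP Pool.Agent.W516.KC
  Pool.Agent.H204R3.SP Pool.Agent.TH119.MX Pool.Agent.R917 Pool.Agent.N208.AM Pool.Agent.N208.AD
  Pool.Agent.N208.BT Pool.Agent.N208.LC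

/-! ### Sums of square roots -/

theorem sum_roots {ξ₁ ξ₂ : ℂ} {r : ℕ} (x : Fin r → ℂ)
    (h : ∀ k, x k ^ 2 = ξ₁ ^ 2 ∨ x k ^ 2 = ξ₂ ^ 2) : ∃ N₁ N₂ : ℤ,
      ∑ k, x k = N₁ * ξ₁ + N₂ * ξ₂ ∧ ∑ k, x k ^ 3 = N₁ * ξ₁ ^ 3 + N₂ * ξ₂ ^ 3 := by
  induction r with
  | zero => exact ⟨0, 0, by simp, by simp⟩
  | succ r ih =>
    obtain ⟨N₁, N₂, h1, h2⟩ := ih (fun k => x k.succ) fun k => h k.succ
    rw [Fin.sum_univ_succ, Fin.sum_univ_succ, h1, h2]
    rcases h 0 with h0 | h0 <;> rcases sq_eq_sq_iff_eq_or_eq_neg.1 h0 with h3 | h3 <;> rw [h3]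
    · exact ⟨N₁ + 1, N₂, by push_cast; ring, by push_cast; ring⟩
    · exact ⟨N₁ - 1, N₂, by push_cast; ring, by push_cast; ring⟩
    · exact ⟨N₁, N₂ + 1, by push_cast; ring, by push_cast; ring⟩
    · exact ⟨N₁, N₂ - 1, by push_cast; ring, by push_cast; ring⟩

/-- Square roots of the roots of an irreducible quadratic polynomial: linear relations are trivial. -/
theorem sum_cubes {a b : ℚ} {r : ℕ} (x : Fin r → ℂ)
    (hx : ∀ k, (x k ^ 2) ^ 2 = a + b * x k ^ 2)
    (hirr : ∀ c : ℚ, c ^ 2 ≠ a + b * c) (hs : ∑ k, x k = 0) : ∑ k, x k ^ 3 = 0 := by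
  -- the roots
  obtain ⟨d, hd⟩ : ∃ d : ℂ, d ^ 2 = (b : ℂ) ^ 2 + 4 * a := IsAlgClosed.exists_pow_nat_eq _ two_pos
  obtain ⟨ξ₁, h1⟩ : ∃ ξ : ℂ, ξ ^ 2 = (b + d) / 2 := IsAlgClosed.exists_pow_nat_eq _ two_pos
  obtain ⟨ξ₂, h2⟩ : ∃ ξ : ℂ, ξ ^ 2 = (b - d) / 2 := IsAlgClosed.exists_pow_nat_eq _ two_pos
  have hsum : ξ₁ ^ 2 + ξ₂ ^ 2 = b := by rw [h1, h2]; ring
  have hroot : ∀ t : ℂ, t ^ 2 = a + b * t → t = ξ₁ ^ 2 ∨ t = ξ₂ ^ 2 := by
    intro t ht
    have h3 : (t - (b + d) / 2) * (t - (b - d) / 2) = 0 := by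
      linear_combination ht - (1 / 4 : ℂ) * hd
    rcases mul_eq_zero.1 h3 with h4 | h4
    · left; rw [h1]; linear_combination h4
    · right; rw [h2]; linear_combination h4
  have e1 : (ξ₁ ^ 2) ^ 2 = a + b * ξ₁ ^ 2 := by
    rw [h1]; linear_combination (1 / 4 : ℂ) * hd
  have e2 : (ξ₂ ^ 2) ^ 2 = a + b * ξ₂ ^ 2 := by
    rw [h2]; linear_combination (1 / 4 : ℂ) * hd
  have hrat : ∀ (ξ : ℂ) (c : ℚ), (ξ ^ 2) ^ 2 = a + b * ξ ^ 2 → ξ ^ 2 ≠ c := by
    intro ξ c h3 h4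
    rw [h4] at h3
    exact hirr c (by exact_mod_cast h3)
  obtain ⟨N₁, N₂, h3, h4⟩ := sum_roots x fun k => hroot _ (hx k)
  rw [hs] at h3
  have h5 : (N₁ : ℂ) ^ 2 * ξ₁ ^ 2 = (N₂ : ℂ) ^ 2 * ξ₂ ^ 2 := by
    have h6 : (N₁ : ℂ) * ξ₁ = -(N₂ * ξ₂) := by linear_combination -h3
    calc (N₁ : ℂ) ^ 2 * ξ₁ ^ 2 = (N₁ * ξ₁) ^ 2 := by ring
      _ = (N₂ : ℂ) ^ 2 * ξ₂ ^ 2 := by rw [h6]; ring
  have hN : N₁ = 0 ∧ N₂ = 0 := by
    by_contra hcon
    have h6 : (N₁ : ℚ) ^ 2 + (N₂ : ℚ) ^ 2 ≠ 0 := by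
      intro h7
      apply hcon
      have h8 : (N₁ : ℚ) = 0 := by nlinarith [sq_nonneg (N₁ : ℚ), sq_nonneg (N₂ : ℚ)]
      have h9 : (N₂ : ℚ) = 0 := by nlinarith [sq_nonneg (N₁ : ℚ), sq_nonneg (N₂ : ℚ)]
      exact ⟨by exact_mod_cast h8, by exact_mod_cast h9⟩
    have h7 : (((N₁ : ℚ) ^ 2 + (N₂ : ℚ) ^ 2 : ℚ) : ℂ) ≠ 0 := by exact_mod_cast h6
    -- `ξ₁ ^ 2` is rational
    refine hrat ξ₁ (b * (N₂ : ℚ) ^ 2 / ((N₁ : ℚ) ^ 2 + (N₂ : ℚ) ^ 2)) e1 ?_
    push_cast at h7 ⊢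
    rw [eq_div_iff h7]
    linear_combination h5 + (N₂ : ℂ) ^ 2 * hsum
  rw [h4, hN.1, hN.2]
  simp

variable {g : ℕ} {A : AbVar g} {z : Module.End ℚ A.H1}

theorem sym_skew_zero {S : Module.End ℚ A.H1} (h1 : ∀ u v, A.om (S u) v = A.om u (S v))
    (h2 : ∀ u v, A.om (S u) v = -A.om u (S v)) : S = 0 := by
  refine LinearMap.ext fun u => A.om_nondeg fun v => ?_
  have := h1 u v
  have := h2 u v
  linarith

theorem span_four {V : Type} [AddCommGroup V] [Module ℚ V] [FiniteDimensional ℚ V]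
    {K : Submodule ℚ V} (hK : finrank ℚ K = 4) (v : Fin 4 → V) (hv : ∀ i, v i ∈ K)
    (hli : LinearIndependent ℚ v) {y : V} (hy : y ∈ K) : ∃ c : Fin 4 → ℚ, y = ∑ i, c i • v i := by
  have h1 : Submodule.span ℚ (Set.range v) ≤ K := by
    rw [Submodule.span_le]
    rintro _ ⟨i, rfl⟩
    exact hv i
  have h2 := finrank_span_eq_card hli
  rw [Fintype.card_fin] at h2
  have h3 : Submodule.span ℚ (Set.range v) = K :=
    Submodule.eq_of_le_of_finrank_le h1 (by rw [h2, hK])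
  rw [← h3] at hy
  obtain ⟨c, hc⟩ := (Submodule.mem_span_range_iff_exists_fun ℚ).1 hy
  exact ⟨c, hc.symm⟩

/-- **Quartic fields without imaginary quadratic subfields**: the relations between the eigenvalues
of the skew elements are trivial. -/
theorem quartic_dom
    (field : ∀ q : Polynomial ℚ, Polynomial.aeval z q ≠ 0 →
      Function.Injective (Polynomial.aeval z q))
    (h4 : finrank ℚ (Algebra.adjoin ℚ {z}) = 4)
    (hno : ∀ q : Polynomial ℚ, IsSkew A.om (Polynomial.aeval z q) → Polynomial.aeval z q ≠ 0 →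
      ∀ c : ℚ, Polynomial.aeval z q * Polynomial.aeval z q ≠ c • 1)
    (p q : Polynomial ℚ) (hp : IsSkew A.om (Polynomial.aeval z p))
    (hq : IsSkew A.om (Polynomial.aeval z q)) (hp0 : Polynomial.aeval z p ≠ 0) :
    Dom (Polynomial.aeval z p) (Polynomial.aeval z q) := by
  obtain ⟨X, hX⟩ : ∃ X, X = Polynomial.aeval z p := ⟨_, rfl⟩
  obtain ⟨Y, hY⟩ : ∃ Y, Y = Polynomial.aeval z q := ⟨_, rfl⟩
  obtain ⟨W, hW⟩ : ∃ W, W = X * X := ⟨_, rfl⟩
  have hXs : IsSkew A.om X := by rw [hX]; exact hp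
  have hYs : IsSkew A.om Y := by rw [hY]; exact hq
  have hWs : ∀ u v, A.om (W u) v = A.om u (W v) := by rw [hW]; exact sq_sym hXs
  have hWX : W * X = X * W := by rw [hW, mul_assoc]
  have hXW : ∀ v, X (W v) = W (X v) := fun v => (LinearMap.congr_fun hWX v).symm
  have hWc : ∀ c : ℚ, W ≠ c • 1 := by
    intro c
    rw [hW, hX]
    exact hno p hp hp0 c
  have hinj : Function.Injective X := by rw [hX]; exact field p hp0
  have hsurj : Function.Surjective X := LinearMap.injective_iff_surjective.1 hinj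
  have hsym : ∀ c d : ℚ, ∀ u v, A.om ((c • (1 : Module.End ℚ A.H1) + d • W) u) v =
      A.om u ((c • (1 : Module.End ℚ A.H1) + d • W) v) := by
    intro c d u v
    simp only [LinearMap.add_apply, LinearMap.smul_apply, Module.End.one_apply, map_add,
      map_smul, smul_eq_mul, hWs]
  have hskew : ∀ c d : ℚ, ∀ u v, A.om ((c • X + d • (W * X)) u) v =
      -A.om u ((c • X + d • (W * X)) v) := by
    intro c d u v
    have e1 := eq_neg_of_add_eq_zero_left (hXs u v)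
    have e2 := eq_neg_of_add_eq_zero_left (hXs u (W v))
    simp only [LinearMap.add_apply, LinearMap.smul_apply, Module.End.mul_apply, map_add,
      map_smul, smul_eq_mul, hWs]
    rw [e1, e2, hXW]
    ring
  have hzero : ∀ c d : ℚ, c • (1 : Module.End ℚ A.H1) + d • W = 0 → c = 0 ∧ d = 0 := by
    intro c d h
    have hd : d = 0 := by
      by_contra hd
      apply hWc (-(c / d))
      have h1 : d • W = -(c • (1 : Module.End ℚ A.H1)) := eq_neg_of_add_eq_zero_right h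
      have h2 : W = d⁻¹ • (d • W) := by rw [smul_smul, inv_mul_cancel₀ hd, one_smul]
      rw [h2, h1]
      module
    rw [hd, zero_smul, add_zero] at h
    refine ⟨?_, hd⟩
    by_contra hc
    have h1 : (1 : Module.End ℚ A.H1) = 0 := (smul_eq_zero.1 h).resolve_left hc
    apply hp0
    rw [← hX, ← mul_one X, h1, mul_zero]
  have hli : LinearIndependent ℚ ![(1 : Module.End ℚ A.H1), W, X, W * X] := by
    rw [Fintype.linearIndependent_iff]
    intro c hc
    rw [Fin.sum_univ_four] at hc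
    simp only [Matrix.cons_val_zero, Matrix.cons_val_one, Matrix.cons_val] at hc
    have hS : c 0 • (1 : Module.End ℚ A.H1) + c 1 • W = -(c 2 • X + c 3 • (W * X)) := by
      rw [← add_eq_zero_iff_eq_neg, ← hc]
      abel
    have h1 : c 0 • (1 : Module.End ℚ A.H1) + c 1 • W = 0 := by
      refine sym_skew_zero (hsym _ _) fun u v => ?_
      rw [hS, LinearMap.neg_apply, LinearMap.neg_apply, map_neg, LinearMap.neg_apply, map_neg,
        hskew]
    have h2 : c 2 • X + c 3 • (W * X) = 0 := by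
      rw [h1] at hS
      exact neg_eq_zero.1 hS.symm
    have h3 : c 2 • (1 : Module.End ℚ A.H1) + c 3 • W = 0 := by
      refine LinearMap.ext fun v => ?_
      obtain ⟨u, rfl⟩ := hsurj v
      exact LinearMap.congr_fun h2 u
    obtain ⟨a0, a1⟩ := hzero _ _ h1
    obtain ⟨a2, a3⟩ := hzero _ _ h3
    intro i
    fin_cases i
    · exact a0
    · exact a1
    · exact a2
    · exact a3
  have hK : ∀ r : Polynomial ℚ, Polynomial.aeval z r ∈ (Algebra.adjoin ℚ {z}).toSubmodule := by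
    intro r
    rw [Subalgebra.mem_toSubmodule, Algebra.adjoin_singleton_eq_range_aeval]
    exact ⟨r, rfl⟩
  have hv : ∀ i, ![(1 : Module.End ℚ A.H1), W, X, W * X] i ∈
      (Algebra.adjoin ℚ {z}).toSubmodule := by
    intro i
    fin_cases i
    · have := hK 1
      rwa [map_one] at this
    · change W ∈ _
      rw [hW, hX, ← map_mul]
      exact hK _
    · change X ∈ _
      rw [hX]
      exact hK _
    · change W * X ∈ _
      rw [hW, hX, ← map_mul, ← map_mul]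
      exact hK _
  have hdec : ∀ T ∈ (Algebra.adjoin ℚ {z}).toSubmodule, ∃ c : Fin 4 → ℚ,
      T = (c 0 • (1 : Module.End ℚ A.H1) + c 1 • W) + (c 2 • X + c 3 • (W * X)) := by
    intro T hT
    obtain ⟨c, hc⟩ := span_four (K := (Algebra.adjoin ℚ {z}).toSubmodule) h4 _ hv hli hT
    refine ⟨c, ?_⟩
    rw [hc, Fin.sum_univ_four]
    simp only [Matrix.cons_val_zero, Matrix.cons_val_one, Matrix.cons_val]
    abel
  -- the element `Y`
  obtain ⟨c, hc⟩ := hdec Y (by rw [hY]; exact hK q)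
  have hY' : Y = c 2 • X + c 3 • (W * X) := by
    have h1 : c 0 • (1 : Module.End ℚ A.H1) + c 1 • W = 0 := by
      refine sym_skew_zero (hsym _ _) fun u v => ?_
      have h2 : c 0 • (1 : Module.End ℚ A.H1) + c 1 • W = Y - (c 2 • X + c 3 • (W * X)) := by
        rw [hc]
        abel
      have e1 := eq_neg_of_add_eq_zero_left (hYs u v)
      rw [h2, LinearMap.sub_apply, LinearMap.sub_apply, map_sub, LinearMap.sub_apply, map_sub,
        hskew, e1]
      ring
    rw [hc, h1, zero_add]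
  -- the element `W ^ 2`
  obtain ⟨d, hd⟩ := hdec (W * W) (by
    rw [hW, hX, ← map_mul, ← map_mul]
    exact hK _)
  have hW2 : W * W = d 0 • (1 : Module.End ℚ A.H1) + d 1 • W := by
    have h1 : d 2 • X + d 3 • (W * X) = 0 := by
      refine sym_skew_zero (fun u v => ?_) (hskew _ _)
      have h2 : d 2 • X + d 3 • (W * X) =
          W * W - (d 0 • (1 : Module.End ℚ A.H1) + d 1 • W) := by
        rw [hd]
        abel
      rw [h2, LinearMap.sub_apply, LinearMap.sub_apply, map_sub, LinearMap.sub_apply, map_sub,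
        hsym, Module.End.mul_apply, Module.End.mul_apply, hWs, hWs]
    rw [hd, h1, add_zero]
  rw [← hX, ← hY]
  intro r v x y hv0 hvx hvy hs
  -- the eigenvalues
  have hbX : ∀ k, W.baseChange ℂ (v k) = (x k ^ 2) • v k := by
    intro k
    rw [hW, bc_mul, Module.End.mul_apply, hvx, map_smul, hvx, smul_smul, pow_two]
  have hbW : ∀ k, (x k ^ 2) ^ 2 = ((d 0 : ℚ) : ℂ) + ((d 1 : ℚ) : ℂ) * x k ^ 2 := by
    intro k
    have h1 : (W * W).baseChange ℂ (v k) = ((x k ^ 2) ^ 2) • v k := by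
      rw [bc_mul, Module.End.mul_apply, hbX, map_smul, hbX, smul_smul, pow_two (x k ^ 2)]
    have h2 : (W * W).baseChange ℂ (v k) =
        (((d 0 : ℚ) : ℂ) + ((d 1 : ℚ) : ℂ) * x k ^ 2) • v k := by
      rw [hW2, LinearMap.baseChange_add, LinearMap.baseChange_smul, LinearMap.baseChange_smul,
        LinearMap.add_apply, LinearMap.smul_apply, LinearMap.smul_apply, hbX]
      have h3 : (1 : Module.End ℚ A.H1).baseChange ℂ (v k) = v k := by
        rw [Module.End.one_eq_id, LinearMap.baseChange_id, LinearMap.id_apply]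
      rw [h3, ← Rat.cast_smul_eq_qsmul ℂ, ← Rat.cast_smul_eq_qsmul ℂ, smul_smul, ← add_smul]
    have h3 : ((x k ^ 2) ^ 2 - (((d 0 : ℚ) : ℂ) + ((d 1 : ℚ) : ℂ) * x k ^ 2)) • v k = 0 := by
      rw [sub_smul, ← h1, ← h2, sub_self]
    exact sub_eq_zero.1 ((smul_eq_zero.1 h3).resolve_right (hv0 k))
  have hby : ∀ k, y k = (c 2 : ℂ) * x k + (c 3 : ℂ) * x k ^ 3 := by
    intro k
    have h2 : Y.baseChange ℂ (v k) = ((c 2 : ℂ) * x k + (c 3 : ℂ) * x k ^ 3) • v k := by
      rw [hY', LinearMap.baseChange_add, LinearMap.baseChange_smul, LinearMap.baseChange_smul,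
        LinearMap.add_apply, LinearMap.smul_apply, LinearMap.smul_apply, bc_mul,
        Module.End.mul_apply, hvx, map_smul, hbX, ← Rat.cast_smul_eq_qsmul ℂ,
        ← Rat.cast_smul_eq_qsmul ℂ, smul_smul, smul_smul, smul_smul, ← add_smul]
      congr 1
      ring
    have h3 : (y k - ((c 2 : ℂ) * x k + (c 3 : ℂ) * x k ^ 3)) • v k = 0 := by
      rw [sub_smul, ← hvy, ← h2, sub_self]
    exact sub_eq_zero.1 ((smul_eq_zero.1 h3).resolve_right (hv0 k))
  -- irreducibility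
  have hirr : ∀ e : ℚ, e ^ 2 ≠ d 0 + d 1 * e := by
    intro e he
    have h1 : (W - e • (1 : Module.End ℚ A.H1)) * (W - (d 1 - e) • (1 : Module.End ℚ A.H1)) = 0 := by
      rw [sub_mul, mul_sub, hW2, mul_smul_comm, mul_one, smul_mul_assoc, one_mul]
      have h2 : d 0 = e ^ 2 - d 1 * e := by linarith
      rw [h2]
      module
    have h2 : ∀ r : ℚ, ∃ s : Polynomial ℚ, W - r • (1 : Module.End ℚ A.H1) =
        Polynomial.aeval z s := by
      intro r
      refine ⟨p * p - Polynomial.C r, ?_⟩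
      rw [hW, hX, map_sub, map_mul, Polynomial.aeval_C, Algebra.algebraMap_eq_smul_one]
    obtain ⟨s, hs'⟩ := h2 e
    have h3 : Function.Injective (W - e • (1 : Module.End ℚ A.H1)) := by
      rw [hs']
      refine field s ?_
      rw [← hs']
      exact sub_ne_zero.2 (hWc e)
    have h4 : W - (d 1 - e) • (1 : Module.End ℚ A.H1) = 0 := by
      refine LinearMap.ext fun u => h3 ?_
      rw [LinearMap.zero_apply, map_zero]
      exact LinearMap.congr_fun h1 u
    exact hWc _ (sub_eq_zero.1 h4)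
  have h5 := sum_cubes x hbW hirr hs
  simp only [hby]
  rw [Finset.sum_add_distrib, ← Finset.mul_sum, ← Finset.mul_sum, hs, h5, mul_zero, mul_zero,
    add_zero]

end Pool.Agent.U400.RT
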