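import Pool.Agent.U400.RT.Sign
import Pool.Agent.N208.LC.Fin

set_option autoImplicit false
set_option linter.unusedSectionVars false

/-!
# Rank two: the derived algebra is the special unitary Lie algebra, if the set of the indefinite
places is primitive
-/

open Module Matrix TensorProduct

noncomputable section

namespace Pool.Agent.U400.RT

open Pool.Agent.Y102 Pool.Agent.W516.DR Pool.Agent.H204R3.GP Pool.Agent.W516.KC
  Pool.Agent.H204R3.SP Pool.Agent.TH119.MX Pool.Agent.R917 Pool.Agent.N208.AM Pool.Agent.N208.AD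
  Pool.Agent.N208.BT Pool.Agent.N208.LC

variable {g : ℕ} {A : AbVar g} {z : Module.End ℚ A.H1}

/-! ### The unitary Lie algebra -/

section le

variable (hz : z ∈ A.EA) (hzs : IsSkew A.om z)
  (field : ∀ q : Polynomial ℚ, Polynomial.aeval z q ≠ 0 →
    Function.Injective (Polynomial.aeval z q))
  (gen : ∀ P ∈ A.EA, (∀ Q ∈ A.EA, P * Q = Q * P) → ∃ q : Polynomial ℚ, P = Polynomial.aeval z q)
  (hap : ∀ X ∈ der A.LA, ∀ Y ∈ der A.LA, ∃ q : Polynomial ℚ, X * Y + Y * X = Polynomial.aeval z q)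
  (hall : ∀ q : Polynomial ℚ, (∀ u v, A.om (Polynomial.aeval z q u) v =
    A.om u (Polynomial.aeval z q v)) → ∀ Z ∈ der A.LA, Polynomial.aeval z q * Z ∈ der A.LA)

/-- the generators of the commutant -/
def GG (A : AbVar g) (z : Module.End ℚ A.H1) : Set (Module.End ℚ A.H1) :=
  {T | (∃ q : Polynomial ℚ, T = Polynomial.aeval z q) ∨
    ∃ q : Polynomial ℚ, ∃ X ∈ der A.LA, T = Polynomial.aeval z q * X}

include hz in
theorem der_comm {X : Module.End ℚ A.H1} (hX : X ∈ der A.LA) (q : Polynomial ℚ) :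
    X * Polynomial.aeval z q = Polynomial.aeval z q * X :=
  comm_aeval' (A.NA_comm (A.LA_le_NA (A.full_LA.der_le hX)) hz) q

include hz hap in
theorem GG_mul {S T : Module.End ℚ A.H1} (hS : S ∈ Submodule.span ℚ (GG A z))
    (hT : T ∈ Submodule.span ℚ (GG A z)) : S * T ∈ Submodule.span ℚ (GG A z) := by
  have h1 : Submodule.span ℚ (GG A z) * Submodule.span ℚ (GG A z) ≤
      Submodule.span ℚ (GG A z) := by
    rw [Submodule.span_mul_span, Submodule.span_le]
    rintro _ ⟨S, hS, T, hT, rfl⟩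
    change S * T ∈ Submodule.span ℚ (GG A z)
    rcases hS with ⟨q, rfl⟩ | ⟨q, X, hX, rfl⟩ <;> rcases hT with ⟨q', rfl⟩ | ⟨q', X', hX', rfl⟩
    · rw [← map_mul]
      exact Submodule.subset_span (Or.inl ⟨_, rfl⟩)
    · rw [← mul_assoc, ← map_mul]
      exact Submodule.subset_span (Or.inr ⟨_, X', hX', rfl⟩)
    · rw [mul_assoc, der_comm hz hX, ← mul_assoc, ← map_mul]
      exact Submodule.subset_span (Or.inr ⟨_, X, hX, rfl⟩)
    · have e1 : Polynomial.aeval z q * X * (Polynomial.aeval z q' * X') =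
          Polynomial.aeval z (q * q') * (X * X') := by
        rw [map_mul, mul_assoc, ← mul_assoc X, der_comm hz hX, mul_assoc, mul_assoc]
      obtain ⟨r, hr⟩ := hap X hX X' hX'
      have e2 : X * X' = (1 / 2 : ℚ) • (X * X' - X' * X) + (1 / 2 : ℚ) • Polynomial.aeval z r := by
        rw [← hr]
        module
      rw [e1, e2, mul_add, mul_smul_comm, mul_smul_comm, ← map_mul]
      refine Submodule.add_mem _ (Submodule.smul_mem _ _ (Submodule.subset_span (Or.inr ⟨_, _, ?_,
        rfl⟩))) (Submodule.smul_mem _ _ (Submodule.subset_span (Or.inl ⟨_, rfl⟩)))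
      exact Submodule.subset_span ⟨X, A.full_LA.der_le hX, X', A.full_LA.der_le hX', rfl⟩
  exact h1 (Submodule.mul_mem_mul hS hT)

include hz gen hap in
theorem CB_le {T : Module.End ℚ A.H1} (hT : T ∈ CB A) : T ∈ Submodule.span ℚ (GG A z) := by
  have h1 : T ∈ Algebra.adjoin ℚ (A.LA : Set (Module.End ℚ A.H1)) :=
    mem_adjoin_of_comm A.semi_LA fun P hP => hT P hP
  refine Algebra.adjoin_induction (p := fun X _ => X ∈ Submodule.span ℚ (GG A z)) ?_ ?_ ?_ ?_ h1
  · intro X hX
    obtain ⟨Z, hZ, d, hd, h2, h3⟩ := A.full_LA.dec hX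
    have h4 := A.CL_le_ZA ⟨hZ, fun Y hY => (h3 Y hY).symm⟩
    obtain ⟨q, hq⟩ := gen Z h4.1 h4.2.2
    rw [h2]
    refine Submodule.add_mem _ (Submodule.subset_span (Or.inl ⟨q, hq⟩))
      (Submodule.subset_span (Or.inr ⟨1, d, hd, ?_⟩))
    rw [map_one, one_mul]
  · intro c
    exact Submodule.subset_span (Or.inl ⟨Polynomial.C c, by rw [Polynomial.aeval_C]⟩)
  · intro X Y _ _ hX hY
    exact Submodule.add_mem _ hX hY
  · intro X Y _ _ hX hY
    exact GG_mul hz hap hX hY

include hz hzs hall in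
theorem GG_adj {T : Module.End ℚ A.H1} (hT : T ∈ Submodule.span ℚ (GG A z)) :
    ∃ T' : Module.End ℚ A.H1, (∀ u v, A.om (T u) v = A.om u (T' v)) ∧
      ∃ q : Polynomial ℚ, ∃ X ∈ der A.LA, T - T' = Polynomial.aeval z q + X := by
  have hz' : ∀ u v, A.om (z u) v = -A.om u (z v) :=
    fun u v => eq_neg_of_add_eq_zero_left (hzs u v)
  induction hT using Submodule.span_induction with
  | mem T hT =>
    rcases hT with ⟨q, rfl⟩ | ⟨q, X, hX, rfl⟩
    · obtain ⟨q', hq'⟩ := adj_aeval (A := A) hz' q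
      exact ⟨_, hq', q - q', 0, Submodule.zero_mem _, by rw [map_sub, add_zero]⟩
    · obtain ⟨q', hq'⟩ := adj_aeval (A := A) hz' q
      have hq'' : ∀ u v, A.om (Polynomial.aeval z q' u) v =
          A.om u (Polynomial.aeval z q v) := by
        intro u v
        rw [A.om_anti, ← hq', A.om_anti, neg_neg]
      refine ⟨-(Polynomial.aeval z q' * X), fun u v => ?_, 0, Polynomial.aeval z (q + q') * X,
        hall _ (fun u v => ?_) X hX, ?_⟩
      · have e1 := A.LA_skew (A.full_LA.der_le hX) u (Polynomial.aeval z q' v)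
        have e2 : X (Polynomial.aeval z q' v) = Polynomial.aeval z q' (X v) :=
          LinearMap.congr_fun (der_comm hz hX q') v
        rw [Module.End.mul_apply, hq', LinearMap.neg_apply, Module.End.mul_apply, map_neg, ← e2]
        exact eq_neg_of_add_eq_zero_left e1
      · rw [map_add, LinearMap.add_apply, LinearMap.add_apply, map_add, LinearMap.add_apply,
          map_add, hq', hq'', add_comm]
      · rw [map_zero, zero_add, sub_neg_eq_add, map_add, add_mul]
  | zero => exact ⟨0, fun u v => by simp, 0, 0, Submodule.zero_mem _, by simp⟩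
  | add S T _ _ hS hT =>
    obtain ⟨S', h1, q, X, hX, h2⟩ := hS
    obtain ⟨T', h1', q', X', hX', h2'⟩ := hT
    refine ⟨S' + T', fun u v => ?_, q + q', X + X', Submodule.add_mem _ hX hX', ?_⟩
    · rw [LinearMap.add_apply, LinearMap.add_apply, map_add, LinearMap.add_apply, map_add, h1,
        h1']
    · rw [map_add, add_sub_add_comm, h2, h2']
      abel
  | smul c T _ hT =>
    obtain ⟨T', h1, q, X, hX, h2⟩ := hT
    refine ⟨c • T', fun u v => ?_, c • q, c • X, Submodule.smul_mem _ c hX, ?_⟩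
    · rw [LinearMap.smul_apply, LinearMap.smul_apply, map_smul, LinearMap.smul_apply, map_smul,
        h1]
    · rw [map_smul, ← smul_sub, h2, smul_add]

theorem half_mem {V : Type} [AddCommGroup V] [Module ℚ V] {F : Submodule ℚ V} {x y : V}
    (h : x + x = y) (hy : y ∈ F) : x ∈ F := by
  have h1 : x = (1 / 2 : ℚ) • y := by
    rw [← h]
    module
  rw [h1]
  exact F.smul_mem _ hy

include hz hzs field gen hap hall in
/-- **The special unitary Lie algebra.** -/
theorem UU_le (hne : Nontrivial A.H1) : UU A z ≤ der A.LA := by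
  intro T hT
  obtain ⟨hT1, hT2, hT3⟩ := hT
  obtain ⟨T', h1, q, X, hX, h2⟩ := GG_adj hz hzs hall (CB_le hz gen hap hT1)
  have h3 : T' = -T := by
    refine LinearMap.ext fun v => ?_
    rw [← sub_eq_zero]
    refine A.om_nondeg fun u => ?_
    rw [A.om_anti, map_sub, ← h1, LinearMap.neg_apply, map_neg]
    have := hT2 u v
    linarith
  rw [h3, sub_neg_eq_add] at h2
  have h4 : ∀ p : Polynomial ℚ,
      LinearMap.trace ℚ A.H1 (Polynomial.aeval z q * Polynomial.aeval z p) = 0 := by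
    intro p
    have e1 : Polynomial.aeval z q * Polynomial.aeval z p =
        T * Polynomial.aeval z p + T * Polynomial.aeval z p - X * Polynomial.aeval z p := by
      rw [← add_mul, h2, add_mul, add_sub_cancel_right]
    rw [e1, map_sub, map_add, hT3, (N383.LCU.der_le_UU hz A.full_LA hX).2.2 p, add_zero, sub_zero]
  have h5 : Polynomial.aeval z q = 0 := by
    by_contra h0
    obtain ⟨b, hb, hab⟩ := inv_of_field z field (Polynomial.aeval z q)
      (by
        rw [Subalgebra.mem_toSubmodule, Algebra.adjoin_singleton_eq_range_aeval]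
        exact ⟨q, rfl⟩) h0
    rw [Subalgebra.mem_toSubmodule, Algebra.adjoin_singleton_eq_range_aeval] at hb
    obtain ⟨p, hp⟩ := hb
    have hp' : Polynomial.aeval z p = b := hp
    have h6 := h4 p
    rw [hp', hab, LinearMap.trace_one] at h6
    exact (Nat.cast_ne_zero.2 (Module.finrank_pos (R := ℚ) (M := A.H1)).ne') h6
  rw [h5, zero_add] at h2
  exact half_mem h2 hX

end le

/-! ### The field of the derived algebra -/

/-- the symmetric elements of the centre which preserve the derived algebra -/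
def Csub (A : AbVar g) (z : Module.End ℚ A.H1) : Subalgebra ℚ (Module.End ℚ A.H1) where
  carrier := {c | (∃ q : Polynomial ℚ, c = Polynomial.aeval z q) ∧
    (∀ u v, A.om (c u) v = A.om u (c v)) ∧ ∀ Z ∈ der A.LA, c * Z ∈ der A.LA}
  mul_mem' := by
    rintro a b ⟨⟨q, rfl⟩, h2, h3⟩ ⟨⟨q', rfl⟩, h2', h3'⟩
    refine ⟨⟨q * q', by rw [map_mul]⟩, fun u v => ?_, fun Z hZ => ?_⟩
    · rw [Module.End.mul_apply, h2, h2', ← Module.End.mul_apply, ← map_mul, ← map_mul,
        mul_comm q']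
    · rw [mul_assoc]
      exact h3 _ (h3' _ hZ)
  add_mem' := by
    rintro a b ⟨⟨q, rfl⟩, h2, h3⟩ ⟨⟨q', rfl⟩, h2', h3'⟩
    refine ⟨⟨q + q', by rw [map_add]⟩, fun u v => ?_, fun Z hZ => ?_⟩
    · rw [LinearMap.add_apply, LinearMap.add_apply, map_add, LinearMap.add_apply, map_add, h2,
        h2']
    · rw [add_mul]
      exact Submodule.add_mem _ (h3 _ hZ) (h3' _ hZ)
  algebraMap_mem' := by
    intro c
    refine ⟨⟨Polynomial.C c, by rw [Polynomial.aeval_C]⟩, fun u v => ?_, fun Z hZ => ?_⟩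
    · rw [Algebra.algebraMap_eq_smul_one, LinearMap.smul_apply, LinearMap.smul_apply,
        Module.End.one_apply, Module.End.one_apply, map_smul, LinearMap.smul_apply, map_smul]
    · rw [← Algebra.smul_def]
      exact Submodule.smul_mem _ _ hZ

theorem mem_Csub {c : Module.End ℚ A.H1} : c ∈ Csub A z ↔
    (∃ q : Polynomial ℚ, c = Polynomial.aeval z q) ∧
      (∀ u v, A.om (c u) v = A.om u (c v)) ∧ ∀ Z ∈ der A.LA, c * Z ∈ der A.LA := Iff.rfl

/-- The set of the indefinite places is primitive. -/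
def Prim (A : AbVar g) (z : Module.End ℚ A.H1) (Sg : Finset ℝ) : Prop :=
  ∀ C : Subalgebra ℚ (Module.End ℚ A.H1), (∀ X ∈ C, (∃ q : Polynomial ℚ, X = Polynomial.aeval z q) ∧
      ∀ u v, A.om (X u) v = A.om u (X v)) →
    (∀ a b : ℝ, (a ∈ Sg ∨ -a ∈ Sg) →
      ((∃ x, x ≠ 0 ∧ Eig A z b x) ∨ ∃ x, x ≠ 0 ∧ Eig A z (-b) x) →
      (∀ q : Polynomial ℚ, Polynomial.aeval z q ∈ C →
        Polynomial.aeval ((a : ℂ) * Complex.I) q = Polynomial.aeval ((b : ℂ) * Complex.I) q) →
      b ∈ Sg ∨ -b ∈ Sg) →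
    ∀ q : Polynomial ℚ, (∀ u v, A.om (Polynomial.aeval z q u) v =
      A.om u (Polynomial.aeval z q v)) → Polynomial.aeval z q ∈ C

/-- The hypotheses: rank two. -/
structure H2 (A : AbVar g) (z : Module.End ℚ A.H1) (Sg : Finset ℝ) : Prop where
  hF : HF A z 2
  ne : Sg.Nonempty
  nz : ∀ a ∈ Sg, a ≠ 0
  ind : ∀ a : ℝ, (a ∈ Sg ∨ -a ∈ Sg) ↔
    ((∃ x, x ≠ 0 ∧ Eig A z a x) ∧ ∃ x, x ≠ 0 ∧ Eig A z (-a) x)

theorem H2.hq {Sg : Finset ℝ} (h : H2 A z Sg) {a : ℝ} (ha : a ∈ Sg ∨ -a ∈ Sg) : HQ A z a where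
  mem := h.hF.mem
  cen := h.hF.cen
  skew := h.hF.skew
  gen := fun P hP hc => by
    obtain ⟨q, hq⟩ := h.hF.gen P hP hc
    exact ⟨q, by rw [hq]⟩
  ne := by
    rcases ha with ha | ha
    · exact h.nz a ha
    · exact neg_ne_zero.1 (h.nz _ ha)
  ex := by
    obtain ⟨x, hx, hxe⟩ := ((h.ind a).1 ha).1
    exact ⟨x, eig_mem_V0 h.hF.mem rfl hxe, hx⟩

theorem H2.nontrivial {Sg : Finset ℝ} (h : H2 A z Sg) : Nontrivial A.H1 := by
  by_contra hcon
  rw [not_nontrivial_iff_subsingleton] at hcon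
  exact h.hF.ne (LinearMap.ext fun v => Subsingleton.elim _ _)

/-- Coordinates at an indefinite place. -/
theorem H2.coord {Sg : Finset ℝ} (h : H2 A z Sg) {a : ℝ} (ha : a ∈ Sg ∨ -a ∈ Sg) :
    ∃ (sg : Fin 2 → ℝ) (φ : VN 2 →ₗ[ℝ] (Fin g → ℂ)), WN A z a 2 sg φ ∧ Mixed sg := by
  have hq := h.hq ha
  obtain ⟨W, hW⟩ := Pool.Agent.N755.BGWA.main g A z a hq
  obtain ⟨N, sg, φ, w⟩ := Pool.Agent.N455.BGWB.main g A z a hq W hW
  have hm : Mixed sg := mixed_of hq ((h.ind a).1 ha).1 ((h.ind a).1 ha).2 w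
  have h1 := sq_le hq w h.hF.field 2 h.hF.deg
  have h2 : 2 ≤ N := by
    obtain ⟨⟨i, hi⟩, j, hj⟩ := hm
    have hij : (i : ℕ) ≠ j := by
      intro hij
      rw [Fin.ext hij] at hi
      rw [hi] at hj
      norm_num at hj
    have := i.2
    have := j.2
    omega
  have h3 : N ≤ 2 := by
    by_contra hcon
    push Not at hcon
    nlinarith
  have hN : N = 2 := le_antisymm h3 h2
  subst hN
  exact ⟨sg, φ, w, hm⟩

theorem H2.anti {Sg : Finset ℝ} (h : H2 A z Sg) {X Y : Module.End ℚ A.H1} (hX : X ∈ der A.LA)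
    (hY : Y ∈ der A.LA) : ∃ q : Polynomial ℚ, X * Y + Y * X = Polynomial.aeval z q := by
  obtain ⟨a, ha⟩ := h.ne
  obtain ⟨sg, φ, w, -⟩ := h.coord (Or.inl ha)
  exact anti_poly (h.hq (Or.inl ha)) w h.hF.field h.hF.gen hX hY

/-- The squares are in the field of the derived algebra. -/
theorem H2.sq_mem {Sg : Finset ℝ} (h : H2 A z Sg) {X : Module.End ℚ A.H1} (hX : X ∈ der A.LA) :
    X * X ∈ Csub A z := by
  obtain ⟨a, ha⟩ := h.ne
  obtain ⟨sg, φ, w, -⟩ := h.coord (Or.inl ha)
  obtain ⟨q', hq'⟩ := h.anti hX hX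
  refine ⟨⟨(1 / 2 : ℚ) • q', ?_⟩, fun u v => ?_, fun Z hZ => ?_⟩
  · rw [map_smul, ← hq']
    module
  · have e1 := A.LA_skew (A.full_LA.der_le hX) (X u) v
    have e2 := A.LA_skew (A.full_LA.der_le hX) u (X v)
    rw [Module.End.mul_apply, Module.End.mul_apply]
    linarith
  · refine half_mem ?_ (anti_mul (h.hq (Or.inl ha)) w h.hF.field h.hF.gen hX hX hZ)
    rw [add_mul]

theorem aeval_neg_conj (b : ℝ) (q : Polynomial ℚ) :
    (Polynomial.aeval (((-b : ℝ) : ℂ) * Complex.I) q).re =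
      (Polynomial.aeval ((b : ℂ) * Complex.I) q).re := by
  have h1 : (((-b : ℝ) : ℂ) * Complex.I) = (starRingEnd ℂ) ((b : ℂ) * Complex.I) := by
    rw [map_mul, Complex.conj_ofReal, Complex.conj_I]
    push_cast
    ring
  have h2 : Polynomial.aeval ((starRingEnd ℂ) ((b : ℂ) * Complex.I)) q =
      (starRingEnd ℂ) (Polynomial.aeval ((b : ℂ) * Complex.I) q) := by
    have h3 := Polynomial.aeval_algHom_apply (Complex.conjAe.toAlgHom.restrictScalars ℚ)
      ((b : ℂ) * Complex.I) q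
    exact h3
  rw [h1, h2, Complex.conj_re]

/-- **Primitive sets of places**: all symmetric elements of the centre preserve the derived
algebra. -/
theorem H2.csub {Sg : Finset ℝ} (h : H2 A z Sg) (hp : Prim A z Sg) (q : Polynomial ℚ)
    (hq : ∀ u v, A.om (Polynomial.aeval z q u) v = A.om u (Polynomial.aeval z q v)) :
    Polynomial.aeval z q ∈ Csub A z := by
  refine hp (Csub A z) (fun X hX => ⟨hX.1, hX.2.1⟩) (fun a b ha hb hab => ?_) q hq
  have hqa := h.hq ha
  obtain ⟨sg, φ, w, hm⟩ := h.coord ha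
  obtain ⟨X, hX, r, hr, hpos⟩ := exists_pos hqa w hm h.hF.field h.hF.gen
  have h1 := hab r (by rw [← hr]; exact h.sq_mem hX)
  rw [h1] at hpos
  have hXN := A.LA_le_NA (A.full_LA.der_le hX)
  have hb0 : b ≠ 0 := by
    rintro rfl
    have h2 : z = 0 := by
      by_contra hz0
      have hinj := h.hF.field Polynomial.X (by rwa [Polynomial.aeval_X])
      rw [Polynomial.aeval_X] at hinj
      have hsurj : Function.Surjective z := LinearMap.injective_iff_surjective.1 hinj
      have h3 : ∃ x, x ≠ 0 ∧ A.ext z x = 0 := by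
        rcases hb with ⟨x, hx, hxe⟩ | ⟨x, hx, hxe⟩
        · refine ⟨x, hx, ?_⟩
          rw [show A.ext z x = _ from hxe]
          simp
        · refine ⟨x, hx, ?_⟩
          rw [show A.ext z x = _ from hxe]
          simp
      obtain ⟨x, hx, hxe⟩ := h3
      apply hx
      refine A.E_nondeg fun v => ?_
      have h4 : A.E x = 0 := A.ext_per fun v => by
        obtain ⟨u, rfl⟩ := hsurj v
        rw [← A.ext_apply, A.E_anti, Pool.Agent.N455.BGWB.E_skew h.hF.skew, hxe]
        simp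
      rw [h4]
      rfl
    exact h.hF.ne h2
  rw [h.ind b]
  by_contra hcon
  rw [not_and_or] at hcon
  rcases hcon with h2 | h2
  · push Not at h2
    obtain ⟨x, hx, hxe⟩ : ∃ x, x ≠ 0 ∧ Eig A z (-b) x := by
      rcases hb with ⟨x, hx, hxe⟩ | h3
      · exact absurd hxe (h2 x hx)
      · exact h3
    have h3 := neg_of_definite h.hF.mem (b := -b) (neg_ne_zero.2 hb0) (fun x hxe => by
      rw [neg_neg] at hxe
      by_contra h0
      exact h2 x h0 hxe) hx hxe hXN hr
    rw [aeval_neg_conj] at h3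
    linarith
  · push Not at h2
    obtain ⟨x, hx, hxe⟩ : ∃ x, x ≠ 0 ∧ Eig A z b x := by
      rcases hb with h3 | ⟨x, hx, hxe⟩
      · exact h3
      · exact absurd hxe (h2 x hx)
    have h3 := neg_of_definite h.hF.mem hb0 (fun x hxe => by
      by_contra h0
      exact h2 x h0 hxe) hx hxe hXN hr
    linarith

/-- **The derived algebra is the special unitary Lie algebra.** -/
theorem H2.UU_le {Sg : Finset ℝ} (h : H2 A z Sg) (hp : Prim A z Sg) : UU A z ≤ der A.LA :=
  RT.UU_le h.hF.mem h.hF.skew h.hF.field h.hF.gen (fun _ hX _ hY => h.anti hX hY)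
    (fun q hq => (h.csub hp q hq).2.2) h.nontrivial

end Pool.Agent.U400.RT
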