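import Pool.Agent.U400.RT.Deg

set_option autoImplicit false
set_option linter.unusedSectionVars false

/-!
# Rank two: the derived algebra is closed under multiplication by the symmetric products
-/

open Module Matrix

noncomputable section

namespace Pool.Agent.U400.RT

open Pool.Agent.Y102 Pool.Agent.W516.DR Pool.Agent.H204R3.GP Pool.Agent.W516.KC
  Pool.Agent.H204R3.SP Pool.Agent.TH119.MX Pool.Agent.R917 Pool.Agent.N208.AM Pool.Agent.N208.AD
  Pool.Agent.N208.BT Pool.Agent.N208.LC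

/-- A perfect Lie algebra, such that the elements `XY + YX` are central, is closed under
multiplication by these elements. -/
theorem mul_closed {R : Type} [Ring R] [Algebra ℚ R] (L : Submodule ℚ R)
    (br : ∀ X ∈ L, ∀ Y ∈ L, X * Y - Y * X ∈ L)
    (perf : L ≤ Submodule.span ℚ {Z | ∃ X ∈ L, ∃ Y ∈ L, Z = X * Y - Y * X})
    (cen : ∀ X ∈ L, ∀ Y ∈ L, ∀ Z ∈ L, (X * Y + Y * X) * Z = Z * (X * Y + Y * X)) :
    ∀ X ∈ L, ∀ Y ∈ L, ∀ Z ∈ L, (X * Y + Y * X) * Z ∈ L := by
  have half : ∀ Z : R, Z + Z ∈ L → Z ∈ L := by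
    intro Z hZ
    have h1 := L.smul_mem (1 / 2 : ℚ) hZ
    have h2 : (1 / 2 : ℚ) • (Z + Z) = Z := by module
    rwa [h2] at h1
  have s1 : ∀ X ∈ L, ∀ Y ∈ L, ∀ Z ∈ L, (X * Y + Y * X) * Z - (X * Z + Z * X) * Y ∈ L := by
    intro X hX Y hY Z hZ
    apply half
    have h1 := br X hX _ (br Y hY Z hZ)
    have e1 := cen X hX Y hY Z hZ
    have e2 := cen X hX Z hZ Y hY
    have h2 : ((X * Y + Y * X) * Z - (X * Z + Z * X) * Y) +
        ((X * Y + Y * X) * Z - (X * Z + Z * X) * Y) =
        X * (Y * Z - Z * Y) - (Y * Z - Z * Y) * X := by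
      have e3 : ((X * Y + Y * X) * Z - (X * Z + Z * X) * Y) +
        ((X * Y + Y * X) * Z - (X * Z + Z * X) * Y) =
        ((X * Y + Y * X) * Z - (X * Z + Z * X) * Y) +
        (Z * (X * Y + Y * X) - Y * (X * Z + Z * X)) := by rw [e1, e2]
      rw [e3]
      noncomm_ring
    rw [h2]
    exact h1
  have s2 : ∀ X ∈ L, ∀ Y ∈ L, ∀ U ∈ L, ∀ V ∈ L,
      (X * Y + Y * X) * (U * V - V * U) - (X * U + U * X) * (Y * V - V * Y) ∈ L := by
    intro X hX Y hY U hU V hV
    have h1 := br _ (s1 X hX Y hY U hU) V hV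
    have e1 := cen X hX Y hY V hV
    have e2 := cen X hX U hU V hV
    have h2 : ((X * Y + Y * X) * U - (X * U + U * X) * Y) * V -
        V * ((X * Y + Y * X) * U - (X * U + U * X) * Y) =
        (X * Y + Y * X) * (U * V - V * U) - (X * U + U * X) * (Y * V - V * Y) := by
      have e3 : V * ((X * Y + Y * X) * U - (X * U + U * X) * Y) =
          (V * (X * Y + Y * X)) * U - (V * (X * U + U * X)) * Y := by noncomm_ring
      rw [e3, ← e1, ← e2]
      noncomm_ring
    rw [← h2]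
    exact h1
  have s3 : ∀ X ∈ L, ∀ Y ∈ L, ∀ U ∈ L, ∀ V ∈ L, (X * Y + Y * X) * (U * V - V * U) ∈ L := by
    intro X hX Y hY U hU V hV
    apply half
    have h1 := s2 X hX Y hY U hU V hV
    have h2 := s2 X hX U hU V hV Y hY
    have h3 := s2 X hX V hV Y hY U hU
    have h4 := L.add_mem (L.sub_mem h1 h2) h3
    have e : (X * Y + Y * X) * (U * V - V * U) - (X * U + U * X) * (Y * V - V * Y) -
        ((X * U + U * X) * (V * Y - Y * V) - (X * V + V * X) * (U * Y - Y * U)) +
        ((X * V + V * X) * (Y * U - U * Y) - (X * Y + Y * X) * (V * U - U * V)) =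
        (X * Y + Y * X) * (U * V - V * U) + (X * Y + Y * X) * (U * V - V * U) := by
      noncomm_ring
    rwa [e] at h4
  intro X hX Y hY Z hZ
  have h1 := perf hZ
  clear hZ
  induction h1 using Submodule.span_induction with
  | mem Z hZ =>
    obtain ⟨U, hU, V, hV, rfl⟩ := hZ
    exact s3 X hX Y hY U hU V hV
  | zero => rw [mul_zero]; exact L.zero_mem
  | add a b _ _ ha hb => rw [mul_add]; exact L.add_mem ha hb
  | smul c a _ ha => rw [mul_smul_comm]; exact L.smul_mem c ha

/-- Matrices of trace zero and size two. -/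
theorem anti_scalar {a b : MN 2} (ha : a.trace = 0) (hb : b.trace = 0) :
    a * b + b * a = (a * b).trace • (1 : MN 2) := by
  rw [Matrix.trace_fin_two] at ha hb
  have ha' : a 1 1 = -a 0 0 := by linear_combination ha
  have hb' : b 1 1 = -b 0 0 := by linear_combination hb
  ext i j
  rw [Matrix.trace_fin_two]
  fin_cases i <;> fin_cases j <;>
    simp [Matrix.mul_apply, Fin.sum_univ_two, ha', hb'] <;> ring

variable {g : ℕ} {A : AbVar g} {z : Module.End ℚ A.H1} {al : ℝ}

section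

variable (h : HQ A z al) {N : ℕ} {sg : Fin N → ℝ} {φ : VN N →ₗ[ℝ] (Fin g → ℂ)}
  (w : WN A z al N sg φ)

include h w in
/-- The matrices of the elements of the derived algebra have trace zero. -/
theorem trace_der {d : Module.End ℚ A.H1} (hd : d ∈ der A.LA) {m : MN N}
    (hm : ∀ x, A.ext d (φ x) = φ (m *ᵥ x)) : m.trace = 0 := by
  have key : ∀ d ∈ der A.LA, ∃ m : MN N, (∀ x, A.ext d (φ x) = φ (m *ᵥ x)) ∧ m.trace = 0 := by
    intro d hd
    unfold der at hd
    induction hd using Submodule.span_induction with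
    | mem d hd =>
      obtain ⟨X, hX, Y, hY, rfl⟩ := hd
      obtain ⟨a, ha⟩ := Pool.Agent.N441.BGSJ.mat_NA h w (A.LA_le_NA hX)
      obtain ⟨b, hb⟩ := Pool.Agent.N441.BGSJ.mat_NA h w (A.LA_le_NA hY)
      refine ⟨a * b - b * a, fun x => ?_, ?_⟩
      · rw [ext_sub, ext_mul, ext_mul, LinearMap.sub_apply, Module.End.mul_apply,
          Module.End.mul_apply, hb, ha, ha, hb, Matrix.sub_mulVec, map_sub,
          Matrix.mulVec_mulVec, Matrix.mulVec_mulVec]
      · rw [Matrix.trace_sub, Matrix.trace_mul_comm, sub_self]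
    | zero =>
      refine ⟨0, fun x => ?_, Matrix.trace_zero _ _⟩
      rw [Matrix.zero_mulVec, map_zero, ext_zero, LinearMap.zero_apply]
    | add a b _ _ ha hb =>
      obtain ⟨m, hm, ht⟩ := ha
      obtain ⟨m', hm', ht'⟩ := hb
      exact ⟨m + m', fun x => by
        rw [ext_add, LinearMap.add_apply, hm, hm', Matrix.add_mulVec, map_add], by
        rw [Matrix.trace_add, ht, ht', add_zero]⟩
    | smul c a _ ha =>
      obtain ⟨m, hm, ht⟩ := ha
      refine ⟨(c : ℝ) • m, fun x => ?_, by rw [Matrix.trace_smul, ht, smul_zero]⟩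
      rw [ext_smul, LinearMap.smul_apply, hm, Matrix.smul_mulVec, map_smul]
  obtain ⟨m', hm', ht'⟩ := key d hd
  rw [mat_un w (m := m) (m' := m') fun x => by rw [← hm, hm']]
  exact ht'

end

section two

variable (h : HQ A z al) {sg : Fin 2 → ℝ} {φ : VN 2 →ₗ[ℝ] (Fin g → ℂ)} (w : WN A z al 2 sg φ)
  (field : ∀ q : Polynomial ℚ, Polynomial.aeval z q ≠ 0 →
    Function.Injective (Polynomial.aeval z q))
  (gen : ∀ P ∈ A.EA, (∀ Q ∈ A.EA, P * Q = Q * P) → ∃ q : Polynomial ℚ, P = Polynomial.aeval z q)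

theorem der_mem_CB {X : Module.End ℚ A.H1} (hX : X ∈ der A.LA) : X ∈ CB A := fun _ hP =>
  A.NA_comm (A.LA_le_NA (A.full_LA.der_le hX)) hP

theorem CB_mul' {X Y : Module.End ℚ A.H1} (hX : X ∈ CB A) (hY : Y ∈ CB A) : X * Y ∈ CB A :=
  fun P hP => by rw [mul_assoc, hY P hP, ← mul_assoc, hX P hP, mul_assoc]

include h w field gen in
/-- The products `XY + YX` are in the centre. -/
theorem anti_poly {X Y : Module.End ℚ A.H1} (hX : X ∈ der A.LA) (hY : Y ∈ der A.LA) :
    ∃ q : Polynomial ℚ, X * Y + Y * X = Polynomial.aeval z q := by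
  have hXC := der_mem_CB hX
  have hYC := der_mem_CB hY
  obtain ⟨a, ha⟩ := N383.LCU.mat_CB h w hXC
  obtain ⟨b, hb⟩ := N383.LCU.mat_CB h w hYC
  have e1 := anti_scalar (trace_der h w hX ha) (trace_der h w hY hb)
  have hT : X * Y + Y * X ∈ CB A := (CB A).add_mem (CB_mul' hXC hYC) (CB_mul' hYC hXC)
  have hTm : ∀ x, A.ext (X * Y + Y * X) (φ x) = φ (((a * b).trace • (1 : MN 2)) *ᵥ x) := by
    intro x
    rw [← e1, ext_add, ext_mul, ext_mul, LinearMap.add_apply, Module.End.mul_apply,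
      Module.End.mul_apply, ha, hb, ha, hb, Matrix.add_mulVec, map_add, Matrix.mulVec_mulVec,
      Matrix.mulVec_mulVec]
  refine gen _ ?_ fun Q hQ => hT Q hQ
  intro W hW
  have hWC : W ∈ CB A := fun P hP => A.NA_comm (A.LA_le_NA hW) hP
  obtain ⟨c, hc⟩ := N383.LCU.mat_CB h w hWC
  rw [← sub_eq_zero]
  refine CB_zero h w field ((CB A).sub_mem (CB_mul' hWC hT) (CB_mul' hT hWC)) fun x => ?_
  rw [ext_sub, ext_mul, ext_mul, LinearMap.sub_apply, Module.End.mul_apply,
    Module.End.mul_apply, hTm, hc, hc, hTm, Matrix.mulVec_mulVec, Matrix.mulVec_mulVec,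
    Matrix.mul_smul, Matrix.smul_mul, mul_one, one_mul, sub_self]

include h w field gen in
/-- The derived algebra is closed under multiplication by the elements `XY + YX`. -/
theorem anti_mul {X Y Z : Module.End ℚ A.H1} (hX : X ∈ der A.LA) (hY : Y ∈ der A.LA)
    (hZ : Z ∈ der A.LA) : (X * Y + Y * X) * Z ∈ der A.LA := by
  refine mul_closed (der A.LA) (fun X hX Y hY => Submodule.subset_span
    ⟨X, A.full_LA.der_le hX, Y, A.full_LA.der_le hY, rfl⟩) A.full_LA.perfect ?_ X hX Y hY Z hZ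
  intro X hX Y hY Z hZ
  obtain ⟨q, hq⟩ := anti_poly h w field gen hX hY
  rw [hq]
  refine (comm_aeval' ?_ q).symm
  exact der_mem_CB hZ z h.mem

end two

end Pool.Agent.U400.RT
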