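import Pool.Agent.U400.RT.Quat

set_option autoImplicit false
set_option linter.unusedSectionVars false

/-!
# Rank two: the signs of the squares at the definite and the indefinite places
-/

open Module Matrix

noncomputable section

namespace Pool.Agent.U400.RT

open Pool.Agent.Y102 Pool.Agent.W516.DR Pool.Agent.H204R3.GP Pool.Agent.W516.KC
  Pool.Agent.H204R3.SP Pool.Agent.TH119.MX Pool.Agent.R917 Pool.Agent.N208.AM Pool.Agent.N208.AD
  Pool.Agent.N208.BT Pool.Agent.N208.LC

variable {g : ℕ} {A : AbVar g} {z : Module.End ℚ A.H1} {al : ℝ}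

/-! ### Definite places -/

/-- Polynomials in `z` on an eigenvector. -/
theorem ext_eig (hz : z ∈ A.EA) {b : ℝ} {x : Fin g → ℂ} (hx : Eig A z b x) (q : Polynomial ℚ) :
    A.ext (Polynomial.aeval z q) x = Polynomial.aeval ((b : ℂ) * Complex.I) q • x := by
  have hC : ∀ (c : ℂ) (x : Fin g → ℂ), A.ext z (c • x) = c • A.ext z x := fun c x =>
    AbVar.CR_complex A.endAlg (Submodule.subset_span ⟨z, hz, rfl⟩) c x
  have hx' : A.ext z x = ((b : ℂ) * Complex.I) • x := hx
  induction q using Polynomial.induction_on with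
  | C c =>
    rw [Polynomial.aeval_C, Polynomial.aeval_C, Algebra.algebraMap_eq_smul_one, ext_smul,
      N383.LCU.ext_one, LinearMap.smul_apply, Module.End.one_apply]
    rfl
  | add p q hp hq =>
    rw [map_add, map_add, ext_add, LinearMap.add_apply, hp, hq, add_smul]
  | monomial k c hk =>
    have e3 : ∀ {R : Type} [Ring R] [Algebra ℚ R] (u : R),
        Polynomial.aeval u (Polynomial.C c * Polynomial.X ^ (k + 1)) =
        Polynomial.aeval u (Polynomial.C c * Polynomial.X ^ k) * u := fun u => by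
      rw [pow_succ, ← mul_assoc, map_mul, Polynomial.aeval_X]
    have e4 : Polynomial.aeval z (Polynomial.C c * Polynomial.X ^ k) * z =
        z * Polynomial.aeval z (Polynomial.C c * Polynomial.X ^ k) := (comm_aeval' rfl _).symm
    rw [e3, e3, e4, ext_mul, Module.End.mul_apply, hk, hC, hx', smul_smul]

/-- **At the definite places the squares are negative.** -/
theorem neg_of_definite (hz : z ∈ A.EA) {b : ℝ} (hb : b ≠ 0)
    (hdef : ∀ x, Eig A z (-b) x → x = 0) {x : Fin g → ℂ} (hx0 : x ≠ 0) (hx : Eig A z b x)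
    {X : Module.End ℚ A.H1} (hX : X ∈ A.NA) {q : Polynomial ℚ}
    (hq : X * X = Polynomial.aeval z q) :
    (Polynomial.aeval ((b : ℂ) * Complex.I) q).re ≤ 0 := by
  have hC : ∀ (c : ℂ) (x : Fin g → ℂ), A.ext z (c • x) = c • A.ext z x := fun c x =>
    AbVar.CR_complex A.endAlg (Submodule.subset_span ⟨z, hz, rfl⟩) c x
  have hb' : (b : ℂ) ≠ 0 := Complex.ofReal_ne_zero.2 hb
  have hxI : Complex.I • x = b⁻¹ • A.ext z x := by
    have h1 : A.ext z x = b • (Complex.I • x) := by
      rw [show A.ext z x = _ from hx, mul_smul, Complex.coe_smul]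
    rw [h1, smul_smul, inv_mul_cancel₀ hb, one_smul]
  have hcz : ∀ v, A.ext X (A.ext z v) = A.ext z (A.ext X v) := by
    intro v
    have h1 : A.ext X * A.ext z = A.ext z * A.ext X := by
      rw [← ext_mul, ← ext_mul, A.NA_comm hX hz]
    exact LinearMap.congr_fun h1 v
  -- the image of `x`
  obtain ⟨y, hy⟩ : ∃ y, y = A.ext X x := ⟨_, rfl⟩
  have hyz : A.ext z (A.ext z y) = -((b ^ 2) • y) := by
    rw [hy, ← hcz, ← hcz, show A.ext z x = _ from hx, hC, show A.ext z x = _ from hx, smul_smul]
    have h1 : ((b : ℂ) * Complex.I * ((b : ℂ) * Complex.I)) • x = (-(b ^ 2)) • x := by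
      rw [← Complex.coe_smul]
      congr 1
      push_cast
      linear_combination ((b : ℂ) ^ 2) * Complex.I_mul_I
    rw [h1, map_smul, neg_smul]
  have hyE : A.ext z y = ((b : ℂ) * Complex.I) • y := by
    have h1 : Eig A z (-b) (((b : ℂ) * Complex.I) • y - A.ext z y) := by
      change A.ext z _ = _
      rw [map_sub, hC, hyz]
      have h2 : (b ^ 2) • y = ((b : ℂ) ^ 2) • y := by
        rw [← Complex.coe_smul]
        push_cast
        rfl
      rw [h2]
      have h3 : ((((-b : ℝ) : ℂ)) * Complex.I) • (((b : ℂ) * Complex.I) • y - A.ext z y) =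
          ((b : ℂ) ^ 2) • y + ((b : ℂ) * Complex.I) • A.ext z y := by
        rw [smul_sub, smul_smul, sub_eq_add_neg, ← neg_smul]
        congr 2
        · push_cast
          linear_combination (-((b : ℂ) ^ 2)) * Complex.I_mul_I
        · push_cast
          ring
      rw [h3]
      abel
    exact (sub_eq_zero.1 (hdef _ h1)).symm
  have hyI : Complex.I • y = b⁻¹ • A.ext z y := by
    have h1 : A.ext z y = b • (Complex.I • y) := by
      rw [hyE, mul_smul, Complex.coe_smul]
    rw [h1, smul_smul, inv_mul_cancel₀ hb, one_smul]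
  have hXI : A.ext X (Complex.I • y) = Complex.I • A.ext X y := by
    have e1 : A.ext X y = Polynomial.aeval ((b : ℂ) * Complex.I) q • x := by
      rw [hy, ← Module.End.mul_apply, ← ext_mul, hq, ext_eig hz hx]
    rw [hyI, map_smul, hcz, e1, hC, show A.ext z x = _ from hx, smul_smul, smul_smul,
      ← Complex.coe_smul, smul_smul]
    congr 1
    push_cast
    field_simp
  have e1 : A.ext X y = Polynomial.aeval ((b : ℂ) * Complex.I) q • x := by
    rw [hy, ← Module.End.mul_apply, ← ext_mul, hq, ext_eig hz hx]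
  obtain ⟨c, hc⟩ : ∃ c, c = Polynomial.aeval ((b : ℂ) * Complex.I) q := ⟨_, rfl⟩
  rw [← hc] at e1 ⊢
  have h1 : A.E y (Complex.I • y) = -(c.re * A.E x (Complex.I • x)) := by
    conv_lhs => rw [hy]
    rw [Pool.Agent.N455.BGWB.E_skew (A.NA_skew hX), ← hy, hXI, e1]
    have h2 : Complex.I • (c • x) = c.re • (Complex.I • x) - c.im • x := by
      rw [← Complex.coe_smul, ← Complex.coe_smul, smul_smul, smul_smul, ← sub_smul]
      congr 1
      conv_lhs => rw [← Complex.re_add_im c]
      linear_combination ((c.im : ℂ)) * Complex.I_mul_I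
    rw [h2, map_sub, LinearMap.map_smul (A.E x) c.re, LinearMap.map_smul (A.E x) c.im,
      smul_eq_mul, smul_eq_mul]
    have h3 : A.E x x = 0 := by
      have h4 := A.E_anti x x
      linarith
    rw [h3, mul_zero, sub_zero]
  have h2 := A.E_pos hx0
  have h3 : 0 ≤ A.E y (Complex.I • y) := by
    by_cases hy0 : y = 0
    · rw [hy0]
      simp
    · exact (A.E_pos hy0).le
  rw [h1] at h3
  by_contra hcon
  push Not at hcon
  have := mul_pos hcon h2
  linarith

/-! ### Indefinite places -/

/-- A hyperbolic element. -/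
theorem hyp_sks {sg : Fin 2 → ℝ} (hm : Mixed sg) : IsSks sg !![0, 1; 1, 0] := by
  intro x y
  have h1 := (opp hm).1
  unfold hs
  rw [Fin.sum_univ_two, Fin.sum_univ_two]
  simp only [Matrix.mulVec, dotProduct, Fin.sum_univ_two, Matrix.of_apply, Matrix.cons_val_zero,
    Matrix.cons_val_one, Matrix.cons_val', Matrix.cons_val_fin_one, zero_mul, one_mul, zero_add,
    add_zero, h1]
  push_cast
  ring

/-- **At the indefinite places there is an element with a positive square.** -/
theorem exists_pos (h : HQ A z al) {sg : Fin 2 → ℝ} {φ : VN 2 →ₗ[ℝ] (Fin g → ℂ)}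
    (w : WN A z al 2 sg φ) (hm : Mixed sg)
    (field : ∀ q : Polynomial ℚ, Polynomial.aeval z q ≠ 0 →
      Function.Injective (Polynomial.aeval z q))
    (gen : ∀ P ∈ A.EA, (∀ Q ∈ A.EA, P * Q = Q * P) →
      ∃ q : Polynomial ℚ, P = Polynomial.aeval z q) :
    ∃ X ∈ der A.LA, ∃ q : Polynomial ℚ, X * X = Polynomial.aeval z q ∧
      0 < (Polynomial.aeval ((al : ℂ) * Complex.I) q).re := by
  by_contra hcon
  push Not at hcon
  have key : ∀ X ∈ der A.LA, ∀ m : MN 2, (∀ x, A.ext X (φ x) = φ (m *ᵥ x)) →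
      (m * m).trace.re ≤ 0 := by
    intro X hX m hmx
    obtain ⟨q', hq'⟩ := anti_poly h w field gen hX hX
    have hq : X * X = Polynomial.aeval z ((1 / 2 : ℚ) • q') := by
      rw [map_smul, ← hq']
      module
    have h1 := hcon X hX _ hq
    have h2 : m * m = Polynomial.aeval ((al : ℂ) * Complex.I) ((1 / 2 : ℚ) • q') • (1 : MN 2) := by
      refine mat_un w fun x => ?_
      rw [← Matrix.mulVec_mulVec, ← hmx, ← hmx, ← Module.End.mul_apply, ← ext_mul, hq,
        N768.BGPD.ext_aeval h w, Matrix.smul_mulVec, Matrix.one_mulVec]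
    rw [h2, Matrix.trace_smul, Matrix.trace_one, Fintype.card_fin, smul_eq_mul]
    rw [Complex.mul_re]
    simp only [Nat.cast_ofNat, Complex.re_ofNat, Complex.im_ofNat, mul_zero, sub_zero]
    linarith
  have hrr := Pool.Agent.N755.BGRR.main g A z al h 2 sg φ w A.LA A.full_LA
  have hY := all_su hm hrr (hyp_sks hm) (by rw [Matrix.trace_fin_two]; simp)
  obtain ⟨y, hy, hym⟩ := hY
  unfold spE at hy
  obtain ⟨n, t, s, hs⟩ := Submodule.mem_span_set'.1 hy
  have hX : ∀ i, ∃ X ∈ (der A.LA : Set (Module.End ℚ A.H1)),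
    ((s i : Module.End ℝ (Fin g → ℂ))) = A.ext X := fun i => (s i).2
  choose X hXd hXe using hX
  have hmx : ∀ i, ∃ m : MN 2, ∀ x, A.ext (X i) (φ x) = φ (m *ᵥ x) := fun i =>
    Pool.Agent.N441.BGSJ.mat_NA h w (A.LA_le_NA (A.full_LA.der_le (hXd i)))
  choose M hM using hmx
  let Q : (Fin n → ℝ) → ℝ := fun t => ((∑ i, t i • M i) * (∑ i, t i • M i)).trace.re
  have hQc : Continuous Q := by
    have h1 : Continuous fun t : Fin n → ℝ => (∑ i, t i • M i) := by fun_prop
    have h2 : Continuous fun t : Fin n → ℝ => (∑ i, t i • M i) * (∑ i, t i • M i) := h1.matrix_mul h1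
    exact Complex.continuous_re.comp h2.matrix_trace
  have hden : DenseRange (fun t : Fin n → ℚ => (fun i => ((t i : ℚ) : ℝ))) :=
    DenseRange.piMap fun _ => Rat.denseRange_cast
  have h0 : ∀ t, Q t ≤ 0 := by
    intro t
    refine hden.induction_on t (isClosed_le hQc continuous_const) fun r => ?_
    change ((∑ i, ((r i : ℚ) : ℝ) • M i) * (∑ i, ((r i : ℚ) : ℝ) • M i)).trace.re ≤ 0
    refine key (∑ i, r i • X i) (Submodule.sum_mem _ fun i _ => Submodule.smul_mem _ _ (hXd i)) _
      fun x => ?_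
    have e0 : ∀ s : Finset (Fin n), A.ext (∑ i ∈ s, r i • X i) (φ x) =
        ∑ i ∈ s, φ ((((r i : ℚ) : ℝ) • M i) *ᵥ x) := by
      intro s
      induction s using Finset.induction_on with
      | empty => rw [Finset.sum_empty, Finset.sum_empty, ext_zero, LinearMap.zero_apply]
      | insert i s hi ih =>
        rw [Finset.sum_insert hi, Finset.sum_insert hi, ext_add, LinearMap.add_apply, ih,
          ext_smul, LinearMap.smul_apply, hM, Matrix.smul_mulVec, map_smul]
    rw [e0, Matrix.sum_mulVec, map_sum]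
  have h1 := h0 t
  have h2 : (∑ i, t i • M i) = !![0, 1; 1, 0] := by
    refine mat_un w fun x => ?_
    rw [← hym, ← hs, LinearMap.sum_apply, Matrix.sum_mulVec, map_sum]
    refine Finset.sum_congr rfl fun i _ => ?_
    rw [LinearMap.smul_apply, hXe, hM, Matrix.smul_mulVec, map_smul]
  have h3 : Q t = 2 := by
    change ((∑ i, t i • M i) * (∑ i, t i • M i)).trace.re = 2
    rw [h2, Matrix.trace_fin_two]
    simp
    norm_num
  rw [h3] at h1
  norm_num at h1

end Pool.Agent.U400.RT
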