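import Pool.Agent.U400.RT.Full
import Pool.Agent.N297.LCCOREG

set_option autoImplicit false
set_option linter.unusedSectionVars false

/-!
# Rank two: the centre, and classes in all degrees
-/

open Module Matrix TensorProduct

noncomputable section

namespace Pool.Agent.U400.RT

open Pool.Agent.Y102 Pool.Agent.W516.DR Pool.Agent.H204R3.GP Pool.Agent.W516.KC
  Pool.Agent.H204R3.SP Pool.Agent.TH119.MX Pool.Agent.R917 Pool.Agent.N208.AM Pool.Agent.N208.AD
  Pool.Agent.N208.BT Pool.Agent.N208.LC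

variable {g : ℕ} {A : AbVar g} {z : Module.End ℚ A.H1}

/-- Polynomials in `z` which are skew are in `ZA`. -/
theorem poly_ZA (hz : z ∈ A.EA) (hcen : ∀ P ∈ A.EA, z * P = P * z) {q : Polynomial ℚ}
    (hs : IsSkew A.om (Polynomial.aeval z q)) : Polynomial.aeval z q ∈ A.ZA := by
  have hcm : ∀ Q ∈ A.EA, Q * Polynomial.aeval z q = Polynomial.aeval z q * Q := fun Q hQ =>
    comm_aeval' (hcen Q hQ).symm q
  refine ⟨?_, hs, fun Q hQ => (hcm Q hQ).symm⟩
  intro X hX
  exact comm_aeval' (A.NA_comm (A.LA_le_NA hX) hz) q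

/-- **The centre is not zero.** -/
theorem H2.centre {Sg : Finset ℝ} (h : H2 A z Sg) : ∃ q : Polynomial ℚ,
    Polynomial.aeval z q ∈ A.CL ∧ Polynomial.aeval z q ≠ 0 := by
  obtain ⟨a, ha⟩ := h.ne
  obtain ⟨sg, φ, w, -⟩ := h.coord (Or.inl ha)
  obtain ⟨Z, hZ, hZ0⟩ := exists_centre (h.hq (Or.inl ha)) w
  have h1 := A.CL_le_ZA hZ
  obtain ⟨q, rfl⟩ := h.hF.gen Z h1.1 h1.2.2
  exact ⟨q, hZ, hZ0⟩

/-- **The skew elements of the centre are in the Lie algebra**, if all relations between the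
eigenvalues of its nonzero elements are relations of all elements. -/
theorem H2.mem_LA {Sg : Finset ℝ} (h : H2 A z Sg)
    (hdom : ∀ p q : Polynomial ℚ, IsSkew A.om (Polynomial.aeval z p) →
      IsSkew A.om (Polynomial.aeval z q) → Polynomial.aeval z p ≠ 0 →
      Dom (Polynomial.aeval z p) (Polynomial.aeval z q)) {q : Polynomial ℚ}
    (hq : IsSkew A.om (Polynomial.aeval z q)) : Polynomial.aeval z q ∈ A.LA := by
  obtain ⟨p, hp, hp0⟩ := h.centre
  have h1 := A.CL_le_ZA hp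
  intro m φ hφ
  exact A.kills_of_dom h1 (poly_ZA h.hF.mem h.hF.cen hq) (hdom p q h1.2.1 hq hp0) (hp.1 m φ hφ)

/-- The Lie algebra of the unitary group annihilates all de Rham-Betti classes. -/
theorem skew_le' {N : ℕ} (hUU : UU A z ≤ der A.LA) (hF : HF A z N)
    (hc : ∀ q : Polynomial ℚ, (∀ u v, A.om (Polynomial.aeval z q u) v +
      A.om u (Polynomial.aeval z q v) = 0) → Polynomial.aeval z q ∈ A.LA)
    {T : Module.End ℚ A.H1} (hT : T ∈ CB A) (hTs : ∀ u v, A.om (T u) v + A.om u (T v) = 0) :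
    T ∈ A.LA := by
  obtain ⟨q, h1, h2⟩ := skew_split hF hT hTs
  have h3 := A.full_LA.der_le (hUU h2)
  have h4 := A.LA.add_mem h3 (hc q h1)
  rwa [sub_add_cancel] at h4

/-- **Classes in all degrees.** -/
theorem main_all' {N m : ℕ} (hUU : UU A z ≤ der A.LA) (hF : HF A z N)
    (hc : ∀ q : Polynomial ℚ, (∀ u v, A.om (Polynomial.aeval z q u) v +
      A.om u (Polynomial.aeval z q v) = 0) → Polynomial.aeval z q ∈ A.LA)
    {φ : MultilinearMap ℚ (fun _ : Fin m × Fin 2 => A.H1) ℚ}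
    (hφ : IsDeRhamBettiForm QBar A.dR tau m φ) :
    φ ∈ Submodule.span ℚ {ψ | IsProductOfHodgeBilinear (A.per : A.H1 →+ (Fin g → ℂ)) ψ} := by
  refine Submodule.span_mono (fun _ h => prB_hodge h) (?_ :
    φ ∈ Submodule.span ℚ (PrB (Fin m × Fin 2) m (QE A : Set (A.H1 →ₗ[ℚ] A.H1 →ₗ[ℚ] ℚ))))
  obtain ⟨P, T, iT, iT', pl, e, h1, h2⟩ := N803.LCADB.main (ℂ ⊗[ℚ] A.H1) _ _ _ _ _
    (N492.LCAP1.main g A z N hF)
  have hkill : ∀ X ∈ cx (CB A), (∀ u v, LinearMap.BilinForm.baseChange ℂ A.om (X u) v +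
      LinearMap.BilinForm.baseChange ℂ A.om u (X v) = 0) → Kil X (bcm (Ω := ℂ) A.bas φ) := by
    intro X hX hs
    have h3 := (kills_bcm_iff (b := A.bas) φ X).2 fun lam => by
      have h4 := cmp_of_ext (CB A) hX lam
      refine A.kills_of_mem hφ (skew_le' hUU hF hc h4 fun u v => ?_)
      have h5 : ∀ (Y : ℂ ⊗[ℚ] A.H1) (v : A.H1),
          lam (LinearMap.BilinForm.baseChange ℂ A.om Y (1 ⊗ₜ[ℚ] v)) = A.om (cmp lam Y) v := by
        intro Y v
        induction Y using TensorProduct.induction_on with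
        | zero => simp
        | add a b ha hb => simp only [map_add, LinearMap.add_apply, ha, hb]
        | tmul a w =>
          rw [LinearMap.BilinForm.baseChange_tmul, cmp_tmul, mul_one, map_smul, map_smul,
            LinearMap.smul_apply, smul_eq_mul, smul_eq_mul, mul_comm]
      have h6 : ∀ (Y : ℂ ⊗[ℚ] A.H1) (u : A.H1),
          lam (LinearMap.BilinForm.baseChange ℂ A.om (1 ⊗ₜ[ℚ] u) Y) = A.om u (cmp lam Y) := by
        intro Y u
        induction Y using TensorProduct.induction_on with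
        | zero => simp
        | add a b ha hb => simp only [map_add, ha, hb]
        | tmul a w =>
          rw [LinearMap.BilinForm.baseChange_tmul, cmp_tmul, one_mul, map_smul, map_smul,
            smul_eq_mul, smul_eq_mul, mul_comm]
      rw [cmpE_apply, cmpE_apply, ← h5, ← h6, ← map_add, hs, map_zero]
    exact h3
  have h3 := (N160.LCBRG.main N297.LCCOREG.main) P N m T
    (Fin m × Fin 2) (ℂ ⊗[ℚ] A.H1) pl e (by simp [mul_comm]) (bcm (Ω := ℂ) A.bas φ)
    (fun b x => hkill _ (h1 b x).1 (h1 b x).2.1)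
  refine Pool.Agent.N441.LCDESC.main A.H1 _ A.bas (Fin m × Fin 2) m (QE A) φ
    (Submodule.span_mono ?_ h3)
  rintro ψ ⟨ε, c, hc, hψ⟩
  refine ⟨ε, c, fun i => ?_, hψ⟩
  obtain ⟨Q, hQ, hQ'⟩ := h2 _ (hc i)
  exact mem_QE hQ _ hQ'

end Pool.Agent.U400.RT
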