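import Pool.Agent.N521.LCHBG
import Pool.Agent.N755.BGRR

set_option autoImplicit false
set_option linter.unusedSectionVars false

/-!
# Signature `(1, 1)`: all full subalgebras contain `su(1, 1)`
-/

open Module Matrix

noncomputable section

namespace Pool.Agent.U400.RT

open Pool.Agent.Y102 Pool.Agent.W516.DR Pool.Agent.H204R3.GP Pool.Agent.W516.KC
  Pool.Agent.H204R3.SP Pool.Agent.TH119.MX Pool.Agent.R917 Pool.Agent.N208.AM Pool.Agent.N208.AD
  Pool.Agent.N208.BT Pool.Agent.N208.LC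

/-! ### Perfect Lie algebras have dimension at least three -/

theorem perfect_small {R : Type} [Ring R] [Algebra ℝ R] (𝔯 : Submodule ℝ R)
    (perf : 𝔯 ≤ Submodule.span ℝ {Z | ∃ X ∈ 𝔯, ∃ Y ∈ 𝔯, Z = X * Y - Y * X})
    {u v : R} (huv : ∀ X ∈ 𝔯, ∃ s t : ℝ, X = s • u + t • v) : 𝔯 = ⊥ := by
  have h1 : ∀ X ∈ 𝔯, ∃ t : ℝ, X = t • (u * v - v * u) := by
    intro X hX
    have h2 := perf hX
    clear hX
    induction h2 using Submodule.span_induction with
    | mem X hX =>
      obtain ⟨Y, hY, Z, hZ, rfl⟩ := hX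
      obtain ⟨s, t, rfl⟩ := huv Y hY
      obtain ⟨s', t', rfl⟩ := huv Z hZ
      refine ⟨s * t' - t * s', ?_⟩
      simp only [add_mul, mul_add, smul_mul_assoc, mul_smul_comm]
      module
    | zero => exact ⟨0, by rw [zero_smul]⟩
    | add a b _ _ ha hb =>
      obtain ⟨s, rfl⟩ := ha
      obtain ⟨t, rfl⟩ := hb
      exact ⟨s + t, by rw [add_smul]⟩
    | smul c a _ ha =>
      obtain ⟨s, rfl⟩ := ha
      exact ⟨c * s, by rw [mul_smul]⟩
  rw [eq_bot_iff]
  refine perf.trans (Submodule.span_le.2 ?_)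
  rintro _ ⟨X, hX, Y, hY, rfl⟩
  obtain ⟨s, hs⟩ := h1 X hX
  obtain ⟨t, ht⟩ := h1 Y hY
  change _ ∈ (⊥ : Submodule ℝ R)
  rw [Submodule.mem_bot, hs, ht, smul_mul_smul_comm, smul_mul_smul_comm, mul_comm t s, sub_self]

theorem three_le {R : Type} [Ring R] [Algebra ℝ R] (𝔯 : Submodule ℝ R) [FiniteDimensional ℝ 𝔯]
    (perf : 𝔯 ≤ Submodule.span ℝ {Z | ∃ X ∈ 𝔯, ∃ Y ∈ 𝔯, Z = X * Y - Y * X}) (h0 : 𝔯 ≠ ⊥) :
    3 ≤ finrank ℝ 𝔯 := by
  by_contra hlt
  apply h0
  obtain ⟨n, hn⟩ : ∃ n, n = finrank ℝ 𝔯 := ⟨_, rfl⟩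
  rw [← hn] at hlt
  have b : Basis (Fin n) ℝ 𝔯 := (Module.finBasis ℝ 𝔯).reindex (finCongr hn.symm)
  have hb : ∀ X (hX : X ∈ 𝔯), X = ∑ i, b.repr ⟨X, hX⟩ i • (b i : R) := by
    intro X hX
    have h1 := congrArg (Subtype.val) (b.sum_repr ⟨X, hX⟩)
    refine h1.symm.trans ?_
    rw [AddSubmonoidClass.coe_finsetSum]
    rfl
  have hn3 : n = 0 ∨ n = 1 ∨ n = 2 := by omega
  rcases hn3 with rfl | rfl | rfl
  · refine perfect_small 𝔯 perf (u := 0) (v := 0) fun X hX => ⟨0, 0, ?_⟩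
    rw [hb X hX]
    simp
  · refine perfect_small 𝔯 perf (u := b 0) (v := 0) fun X hX => ⟨b.repr ⟨X, hX⟩ 0, 0, ?_⟩
    conv_lhs => rw [hb X hX]
    simp
  · refine perfect_small 𝔯 perf (u := b 0) (v := b 1) fun X hX =>
      ⟨b.repr ⟨X, hX⟩ 0, b.repr ⟨X, hX⟩ 1, ?_⟩
    conv_lhs => rw [hb X hX]
    rw [Fin.sum_univ_two]

/-! ### The Lie algebra `su(1, 1)` -/

/-- the coordinates -/
def co : MN 2 →ₗ[ℝ] (Fin 3 → ℝ) where
  toFun X := ![(X 0 0).im, (X 0 1).re, (X 0 1).im]
  map_add' X Y := by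
    ext i
    fin_cases i <;> simp
  map_smul' c X := by
    ext i
    fin_cases i <;> simp

theorem hs_single {sg : Fin 2 → ℝ} (X : MN 2) (i j : Fin 2) :
    hs sg (X *ᵥ Pi.single j 1) (Pi.single i 1) = (sg i : ℂ) * X i j := by
  unfold hs
  rw [Finset.sum_eq_single i]
  · simp [Matrix.mulVec_single]
  · intro k _ hk
    rw [Pi.single_eq_of_ne hk, star_zero, mul_zero]
  · intro h
    exact absurd (Finset.mem_univ i) h

theorem hs_single' {sg : Fin 2 → ℝ} (X : MN 2) (i j : Fin 2) :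
    hs sg (Pi.single j 1) (X *ᵥ Pi.single i 1) = (sg j : ℂ) * star (X j i) := by
  unfold hs
  rw [Finset.sum_eq_single j]
  · simp [Matrix.mulVec_single]
  · intro k _ hk
    rw [Pi.single_eq_of_ne hk, mul_zero, zero_mul]
  · intro h
    exact absurd (Finset.mem_univ j) h

theorem sks_entry {sg : Fin 2 → ℝ} {X : MN 2} (h : IsSks sg X) (i j : Fin 2) :
    (sg i : ℂ) * X i j + (sg j : ℂ) * star (X j i) = 0 := by
  have h1 := h (Pi.single j 1) (Pi.single i 1)
  rwa [hs_single, hs_single'] at h1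

theorem opp {sg : Fin 2 → ℝ} (hm : Mixed sg) : sg 1 = -sg 0 ∧ sg 0 ≠ 0 := by
  obtain ⟨⟨i, hi⟩, j, hj⟩ := hm
  fin_cases i <;> fin_cases j <;> simp only [Fin.zero_eta, Fin.mk_one] at hi hj
  · rw [hi] at hj; norm_num at hj
  · exact ⟨by rw [hi, hj], by rw [hi]; exact one_ne_zero⟩
  · exact ⟨by rw [hi, hj]; norm_num, by rw [hj]; norm_num⟩
  · rw [hi] at hj; norm_num at hj

/-- elements of `su(1, 1)` are determined by their coordinates -/
theorem co_inj {sg : Fin 2 → ℝ} (hm : Mixed sg) {X : MN 2} (h : IsSks sg X) (ht : X.trace = 0)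
    (h0 : co X = 0) : X = 0 := by
  obtain ⟨h1, h2⟩ := opp hm
  have e0 : (X 0 0).im = 0 := congrFun h0 0
  have e1 : (X 0 1).re = 0 := congrFun h0 1
  have e2 : (X 0 1).im = 0 := congrFun h0 2
  have h2' : (sg 0 : ℂ) ≠ 0 := by exact_mod_cast h2
  have a1 : X 0 1 = 0 := Complex.ext e1 e2
  have a2 : X 1 0 = 0 := by
    have h3 := sks_entry h 1 0
    rw [a1, star_zero, mul_zero, add_zero, h1] at h3
    push_cast at h3
    exact (mul_eq_zero.1 h3).resolve_left (neg_ne_zero.2 h2')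
  have a0 : X 0 0 = 0 := by
    have h3 := sks_entry h 0 0
    rw [← mul_add] at h3
    have h4 := (mul_eq_zero.1 h3).resolve_left h2'
    have h5 := congrArg Complex.re h4
    rw [Complex.add_re, Complex.zero_re] at h5
    change (X 0 0).re + (X 0 0).re = 0 at h5
    exact Complex.ext (by rw [Complex.zero_re]; linarith) e0
  have a3 : X 1 1 = 0 := by
    rw [Matrix.trace_fin_two, a0, zero_add] at ht
    exact ht
  ext i j
  fin_cases i <;> fin_cases j
  · exact a0
  · exact a1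
  · exact a2
  · exact a3

/-- **Perfect irreducible Lie subalgebras of `su(1, 1)`.** -/
theorem all_su {sg : Fin 2 → ℝ} (hm : Mixed sg) {𝔯 : Submodule ℝ (MN 2)} (h : RRs sg 𝔯)
    {X : MN 2} (hX : IsSks sg X) (ht : X.trace = 0) : X ∈ 𝔯 := by
  have htr : ∀ Y ∈ 𝔯, Y.trace = 0 := by
    intro Y hY
    have h1 := h.perf hY
    clear hY
    induction h1 using Submodule.span_induction with
    | mem Y hY =>
      obtain ⟨a, -, b, -, rfl⟩ := hY
      rw [Matrix.trace_sub, Matrix.trace_mul_comm, sub_self]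
    | zero => exact Matrix.trace_zero _ _
    | add a b _ _ ha hb => rw [Matrix.trace_add, ha, hb, add_zero]
    | smul c a _ ha => rw [Matrix.trace_smul, ha, smul_zero]
  have hne : 𝔯 ≠ ⊥ := by
    rintro rfl
    have h1 := h.irr (Submodule.span ℂ {(Pi.single 0 1 : VN 2)}) fun X hX u _ => by
      rw [(Submodule.mem_bot ℝ).1 hX, Matrix.zero_mulVec]
      exact Submodule.zero_mem _
    rcases h1 with h1 | h1
    · have h2 : (Pi.single 0 1 : VN 2) ∈ (⊥ : Submodule ℂ (VN 2)) := by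
        rw [← h1]
        exact Submodule.mem_span_singleton_self _
      have h3 := congrFun ((Submodule.mem_bot ℂ).1 h2) 0
      rw [Pi.single_eq_same] at h3
      exact one_ne_zero h3
    · have h2 : (Pi.single 1 1 : VN 2) ∈ Submodule.span ℂ {(Pi.single 0 1 : VN 2)} := by
        rw [h1]
        exact Submodule.mem_top
      obtain ⟨c, hc⟩ := Submodule.mem_span_singleton.1 h2
      have h3 := congrFun hc 1
      rw [Pi.smul_apply, Pi.single_eq_same, Pi.single_eq_of_ne (by decide), smul_zero] at h3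
      exact zero_ne_one h3
  have h3 := three_le 𝔯 h.perf hne
  let f : 𝔯 →ₗ[ℝ] (Fin 3 → ℝ) := co.comp 𝔯.subtype
  have hf : Function.Injective f := by
    refine (injective_iff_map_eq_zero f).2 fun Y hY => ?_
    exact Subtype.ext (co_inj hm (h.sk Y Y.2) (htr Y Y.2) hY)
  have h4 : finrank ℝ 𝔯 = finrank ℝ (Fin 3 → ℝ) := by
    refine le_antisymm (LinearMap.finrank_le_finrank_of_injective hf) ?_
    rw [Module.finrank_fin_fun]
    exact h3
  have h5 : Function.Surjective f :=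
    (LinearMap.injective_iff_surjective_of_finrank_eq_finrank h4).1 hf
  obtain ⟨Y, hY⟩ := h5 (co X)
  have h6 : X - Y = 0 := by
    refine co_inj hm ?_ ?_ ?_
    · intro x y
      have e1 := hX x y
      have e2 := h.sk Y Y.2 x y
      have e3 : ∀ a b c : VN 2, hs sg (a - b) c = hs sg a c - hs sg b c := by
        intro a b c
        unfold hs
        rw [← Finset.sum_sub_distrib]
        refine Finset.sum_congr rfl fun i _ => ?_
        rw [Pi.sub_apply]
        ring
      have e4 : ∀ a b c : VN 2, hs sg c (a - b) = hs sg c a - hs sg c b := by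
        intro a b c
        unfold hs
        rw [← Finset.sum_sub_distrib]
        refine Finset.sum_congr rfl fun i _ => ?_
        rw [Pi.sub_apply, star_sub]
        ring
      rw [Matrix.sub_mulVec, Matrix.sub_mulVec, e3, e4]
      linear_combination e1 - e2
    · rw [Matrix.trace_sub, ht, htr Y Y.2, sub_self]
    · rw [map_sub, sub_eq_zero]
      exact hY.symm
  rw [sub_eq_zero.1 h6]
  exact Y.2

end Pool.Agent.U400.RT
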