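import Pool.Agent.U400.RT.Big
import Pool.Agent.N455.BGWB

set_option autoImplicit false
set_option linter.unusedSectionVars false

/-!
# Rank two: the centre of the Lie algebra of the de Rham-Betti group is not zero
-/

open Module Matrix

noncomputable section

namespace Pool.Agent.U400.RT

open Pool.Agent.Y102 Pool.Agent.W516.DR Pool.Agent.H204R3.GP Pool.Agent.W516.KC
  Pool.Agent.H204R3.SP Pool.Agent.TH119.MX Pool.Agent.R917 Pool.Agent.N208.AM Pool.Agent.N208.AD
  Pool.Agent.N208.BT Pool.Agent.N208.LC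

variable {g : ℕ} {A : AbVar g} {z : Module.End ℚ A.H1} {al : ℝ}

/-! ### Bilinear forms with values in `ℂ` -/

/-- A rational bilinear form is given by an operator. -/
theorem exists_op (β : A.H1 →ₗ[ℚ] A.H1 →ₗ[ℚ] ℚ) :
    ∃ P : Module.End ℚ A.H1, ∀ u v, β u v = A.om u (P v) := by
  have hinj : Function.Injective A.om.flip := by
    rw [← LinearMap.ker_eq_bot, LinearMap.ker_eq_bot']
    intro v hv
    refine A.om_nondeg fun u => ?_
    rw [A.om_anti, ← LinearMap.flip_apply, hv, LinearMap.zero_apply, neg_zero]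
  let e : A.H1 ≃ₗ[ℚ] Module.Dual ℚ A.H1 := LinearEquiv.ofInjectiveOfFinrankEq A.om.flip hinj
    (Subspace.dual_finrank_eq (K := ℚ) (V := A.H1)).symm
  have he : ∀ v, e v = A.om.flip v := fun v => rfl
  refine ⟨e.symm.toLinearMap ∘ₗ β.flip, fun u v => ?_⟩
  have h1 : A.om.flip (e.symm (β.flip v)) = β.flip v := by
    rw [← he, LinearEquiv.apply_symm_apply]
  have h2 := LinearMap.congr_fun h1 u
  rw [LinearMap.flip_apply, LinearMap.flip_apply] at h2
  exact h2.symm

theorem ne_of_lam {c : ℂ} (h : ∀ lam : ℂ →ₗ[ℚ] ℚ, lam c = 0) : c = 0 := by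
  by_contra hc
  obtain ⟨lam, hlam⟩ := exists_lam
  have h1 := h (lam ∘ₗ (LinearMap.mulLeft ℚ c⁻¹))
  rw [LinearMap.comp_apply, LinearMap.mulLeft_apply, inv_mul_cancel₀ hc, hlam] at h1
  exact one_ne_zero h1

/-- A bilinear form with values in `ℂ` which is annihilated by the Lie algebra is annihilated by all
central skew elements of the endomorphism algebra. -/
theorem central_kills (b : A.H1 →ₗ[ℚ] A.H1 →ₗ[ℚ] ℂ)
    (hb : ∀ X ∈ A.LA, ∀ u v, b (X u) v + b u (X v) = 0)
    (hzc : ∀ P ∈ A.EA, z * P = P * z) (hzs : IsSkew A.om z) (u v : A.H1) :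
    b (z u) v + b u (z v) = 0 := by
  refine ne_of_lam fun lam => ?_
  let β : A.H1 →ₗ[ℚ] A.H1 →ₗ[ℚ] ℚ := b.compr₂ lam
  have hβ : ∀ u v, β u v = lam (b u v) := fun u v => rfl
  obtain ⟨P, hP⟩ := exists_op β
  have h1 : P ∈ A.EA := by
    intro X hX
    refine LinearMap.ext fun v => ?_
    rw [← sub_eq_zero]
    refine A.om_nondeg fun u => ?_
    rw [A.om_anti]
    have e1 := congrArg lam (hb X hX u v)
    rw [map_add, map_zero, ← hβ, ← hβ, hP, hP] at e1
    have e2 := A.LA_skew hX u (P v)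
    rw [Module.End.mul_apply, Module.End.mul_apply, map_sub]
    linarith
  rw [map_add, ← hβ, ← hβ, hP, hP]
  have e2 := hzs u (P v)
  have e3 : z (P v) = P (z v) := LinearMap.congr_fun (hzc P h1) v
  rw [← e3]
  exact e2

/-! ### The determinant form -/

section det

variable {N : ℕ} {sg : Fin N → ℝ} {φ : VN N →ₗ[ℝ] (Fin g → ℂ)}

/-- the functional given by a vector -/
def FF (A : AbVar g) (φ : VN N →ₗ[ℝ] (Fin g → ℂ)) (x : VN N) : A.H1 →ₗ[ℚ] ℂ where
  toFun u := (A.E (A.per u) (φ x) : ℂ) - Complex.I * (A.E (A.per u) (φ (Complex.I • x)) : ℂ)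
  map_add' u v := by
    rw [map_add, map_add, LinearMap.add_apply, LinearMap.add_apply]
    push_cast
    ring
  map_smul' c u := by
    have h1 : A.per (c • u) = (c : ℝ) • A.per u := by
      rw [map_smul]
      exact AbVar.rat_smul c _
    rw [h1, map_smul, LinearMap.smul_apply, LinearMap.smul_apply, RingHom.id_apply,
      smul_eq_mul, smul_eq_mul]
    have h2 : ∀ y : ℂ, c • y = (c : ℂ) * y := fun y => by
      rw [← Rat.cast_smul_eq_qsmul ℂ, smul_eq_mul]
    rw [h2]
    push_cast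
    ring

theorem FF_apply (x : VN N) (u : A.H1) : FF A φ x u =
    (A.E (A.per u) (φ x) : ℂ) - Complex.I * (A.E (A.per u) (φ (Complex.I • x)) : ℂ) := rfl

theorem FF_add (x y : VN N) (u : A.H1) : FF A φ (x + y) u = FF A φ x u + FF A φ y u := by
  rw [FF_apply, FF_apply, FF_apply, smul_add, map_add, map_add, map_add, map_add]
  push_cast
  ring

theorem FF_real (c : ℝ) (x : VN N) (u : A.H1) : FF A φ (c • x) u = c * FF A φ x u := by
  rw [FF_apply, FF_apply, smul_comm, map_smul, map_smul, map_smul, map_smul, smul_eq_mul,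
    smul_eq_mul]
  push_cast
  ring

theorem FF_I (x : VN N) (u : A.H1) : FF A φ (Complex.I • x) u = Complex.I * FF A φ x u := by
  rw [FF_apply, FF_apply, smul_smul, Complex.I_mul_I, neg_one_smul, map_neg, map_neg]
  push_cast
  linear_combination ((A.E (A.per u) (φ (Complex.I • x)) : ℂ)) * Complex.I_mul_I

theorem FF_smul (c : ℂ) (x : VN N) (u : A.H1) : FF A φ (c • x) u = c * FF A φ x u := by
  rw [Pool.Agent.N441.BGSJ.c_smul, FF_add, FF_real, FF_real, FF_I]
  conv_rhs => rw [← Complex.re_add_im c]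
  ring

theorem FF_X {X : Module.End ℚ A.H1} (hX : IsSkew A.om X) {m : MN N}
    (hm : ∀ x, A.ext X (φ x) = φ (m *ᵥ x)) (x : VN N) (u : A.H1) :
    FF A φ x (X u) = -FF A φ (m *ᵥ x) u := by
  have h1 : ∀ y, A.E (A.per (X u)) (φ y) = -A.E (A.per u) (φ (m *ᵥ y)) := by
    intro y
    rw [← A.ext_apply, Pool.Agent.N455.BGWB.E_skew hX, hm]
  rw [FF_apply, FF_apply, h1, h1, Matrix.mulVec_smul]
  push_cast
  ring

theorem FF_z (h : HQ A z al) (w : WN A z al N sg φ) (x : VN N) (u : A.H1) :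
    FF A φ x (z u) = -((al : ℂ) * Complex.I) * FF A φ x u := by
  have h1 : ∀ y, A.E (A.per (z u)) (φ y) = -A.E (A.per u) (φ (((al : ℂ) * Complex.I) • y)) := by
    intro y
    rw [← A.ext_apply, Pool.Agent.N455.BGWB.E_skew h.skew, Pool.Agent.N768.BGPD.ext_z h w]
  rw [FF_apply, h1, h1, smul_comm _ Complex.I x, neg_mul, ← FF_smul, FF_apply]
  push_cast
  ring

theorem FF_inj (w : WN A z al N sg φ) {x : VN N} (hx : ∀ u, FF A φ x u = 0) : x = 0 := by
  have h1 : ∀ u, A.E (A.per u) (φ x) = 0 := by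
    intro u
    have h2 := congrArg Complex.re (hx u)
    rw [FF_apply] at h2
    simpa using h2
  have h2 : A.E.flip (φ x) = 0 := A.ext_per fun u => by
    rw [LinearMap.flip_apply, h1]
    rfl
  have h3 : φ x = 0 := A.E_nondeg fun v => by
    rw [A.E_anti, ← LinearMap.flip_apply, h2]
    simp
  exact w.inj (by rw [h3, map_zero])

end det

/-- **The trace does not vanish on the Lie algebra**: otherwise the determinant of the
two-dimensional space is annihilated by the Lie algebra. -/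
theorem exists_trace (h : HQ A z al) {sg : Fin 2 → ℝ} {φ : VN 2 →ₗ[ℝ] (Fin g → ℂ)}
    (w : WN A z al 2 sg φ) : ∃ X ∈ A.LA, ∃ m : MN 2, (∀ x, A.ext X (φ x) = φ (m *ᵥ x)) ∧
      m.trace ≠ 0 := by
  by_contra hcon
  push Not at hcon
  let e : Fin 2 → VN 2 := fun k => Pi.single k 1
  let b : A.H1 →ₗ[ℚ] A.H1 →ₗ[ℚ] ℂ := LinearMap.mk₂ ℚ
    (fun u v => FF A φ (e 0) u * FF A φ (e 1) v - FF A φ (e 1) u * FF A φ (e 0) v)
    (fun u u' v => by rw [map_add, map_add]; ring)
    (fun c u v => by rw [map_smul, map_smul, smul_mul_assoc, smul_mul_assoc, smul_sub])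
    (fun u v v' => by rw [map_add, map_add]; ring)
    (fun c u v => by rw [map_smul, map_smul, mul_smul_comm, mul_smul_comm, smul_sub])
  have hb : ∀ u v, b u v = FF A φ (e 0) u * FF A φ (e 1) v - FF A φ (e 1) u * FF A φ (e 0) v :=
    fun u v => rfl
  have hme : ∀ (m : MN 2) (k : Fin 2), m *ᵥ e k = m 0 k • e 0 + m 1 k • e 1 := by
    intro m k
    ext i
    fin_cases k <;> fin_cases i <;> simp [e, Matrix.mulVec, dotProduct, Fin.sum_univ_two]
  have h1 : ∀ X ∈ A.LA, ∀ u v, b (X u) v + b u (X v) = 0 := by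
    intro X hX u v
    obtain ⟨m, hm⟩ := Pool.Agent.N441.BGSJ.mat_NA h w (A.LA_le_NA hX)
    have ht := hcon X hX m hm
    rw [Matrix.trace_fin_two] at ht
    rw [hb, hb, FF_X (A.LA_skew hX) hm, FF_X (A.LA_skew hX) hm, FF_X (A.LA_skew hX) hm,
      FF_X (A.LA_skew hX) hm, hme, hme]
    simp only [FF_add, FF_smul]
    linear_combination (-(FF A φ (e 0) u * FF A φ (e 1) v - FF A φ (e 1) u * FF A φ (e 0) v)) * ht
  have h2 := central_kills b h1 h.cen h.skew
  have h3 : ∀ u v, b u v = 0 := by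
    intro u v
    have h4 := h2 u v
    rw [hb, hb, FF_z h w, FF_z h w, FF_z h w, FF_z h w] at h4
    have h5 : (-2 * ((al : ℂ) * Complex.I)) * b u v = 0 := by
      rw [hb]
      linear_combination h4
    refine (mul_eq_zero.1 h5).resolve_left ?_
    exact mul_ne_zero (by norm_num) (mul_ne_zero (Complex.ofReal_ne_zero.2 h.ne) Complex.I_ne_zero)
  have he : ∀ k, e k ≠ 0 := by
    intro k hk
    have h4 := congrFun hk k
    simp [e] at h4
  obtain ⟨u, hu⟩ : ∃ u, FF A φ (e 0) u ≠ 0 := by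
    by_contra hc
    push Not at hc
    exact he 0 (FF_inj w hc)
  have h4 : FF A φ (e 0) u • e 1 - FF A φ (e 1) u • e 0 = 0 := by
    refine FF_inj w fun v => ?_
    have h5 := h3 u v
    rw [hb] at h5
    rw [sub_eq_add_neg, ← neg_smul, FF_add, FF_smul, FF_smul]
    linear_combination h5
  have h5 := congrFun h4 1
  simp [e] at h5
  exact hu h5

/-- **The centre is not zero.** -/
theorem exists_centre (h : HQ A z al) {sg : Fin 2 → ℝ} {φ : VN 2 →ₗ[ℝ] (Fin g → ℂ)}
    (w : WN A z al 2 sg φ) : ∃ Z ∈ A.CL, Z ≠ 0 := by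
  obtain ⟨X, hX, m, hm, ht⟩ := exists_trace h w
  obtain ⟨Z, hZ, d, hd, h1, h2⟩ := A.full_LA.dec hX
  refine ⟨Z, ⟨hZ, fun Y hY => (h2 Y hY).symm⟩, fun h0 => ht ?_⟩
  rw [h0, zero_add] at h1
  subst h1
  -- the trace of the matrices of the elements of the derived algebra
  have key : ∀ d ∈ der A.LA, ∀ m : MN 2, (∀ x, A.ext d (φ x) = φ (m *ᵥ x)) → m.trace = 0 := by
    have hun : ∀ m m' : MN 2, (∀ x, φ (m *ᵥ x) = φ (m' *ᵥ x)) → m = m' := by
      intro m m' hmm
      refine Matrix.ext_of_mulVec_single fun k => ?_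
      exact w.inj (hmm _)
    have key2 : ∀ d ∈ der A.LA, ∃ m : MN 2, (∀ x, A.ext d (φ x) = φ (m *ᵥ x)) ∧ m.trace = 0 := by
      intro d hd
      unfold der at hd
      induction hd using Submodule.span_induction with
      | mem d hd =>
        obtain ⟨X, hX, Y, hY, rfl⟩ := hd
        obtain ⟨a, ha⟩ := Pool.Agent.N441.BGSJ.mat_NA h w (A.LA_le_NA hX)
        obtain ⟨b, hb⟩ := Pool.Agent.N441.BGSJ.mat_NA h w (A.LA_le_NA hY)
        refine ⟨a * b - b * a, fun x => ?_, ?_⟩
        · rw [ext_sub, ext_mul, ext_mul, LinearMap.sub_apply, Module.End.mul_apply,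
            Module.End.mul_apply, hb, ha, ha, hb, Matrix.sub_mulVec, map_sub,
            Matrix.mulVec_mulVec, Matrix.mulVec_mulVec]
        · rw [Matrix.trace_sub, Matrix.trace_mul_comm, sub_self]
      | zero =>
        refine ⟨0, fun x => ?_, Matrix.trace_zero _ _⟩
        rw [Matrix.zero_mulVec, map_zero, ext_zero, LinearMap.zero_apply]
      | add a b _ _ ha hb =>
        obtain ⟨m, hm, ht⟩ := ha
        obtain ⟨m', hm', ht'⟩ := hb
        exact ⟨m + m', fun x => by
          rw [ext_add, LinearMap.add_apply, hm, hm', Matrix.add_mulVec, map_add], by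
          rw [Matrix.trace_add, ht, ht', add_zero]⟩
      | smul c a _ ha =>
        obtain ⟨m, hm, ht⟩ := ha
        refine ⟨(c : ℝ) • m, fun x => ?_, by rw [Matrix.trace_smul, ht, smul_zero]⟩
        rw [ext_smul, LinearMap.smul_apply, hm, Matrix.smul_mulVec, map_smul]
    intro d hd m hm
    obtain ⟨m', hm', ht'⟩ := key2 d hd
    rw [hun m m' fun x => by rw [← hm, hm']]
    exact ht'
  exact key X hd m hm

end Pool.Agent.U400.RT
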