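import Pool.Agent.U400.RT.Place

set_option autoImplicit false
set_option linter.unusedSectionVars false

/-!
# Sets of places whose number is coprime to the degree are primitive
-/

open Module Matrix Polynomial

noncomputable section

namespace Pool.Agent.U400.RT

open Pool.Agent.Y102 Pool.Agent.W516.DR Pool.Agent.H204R3.GP Pool.Agent.W516.KC
  Pool.Agent.H204R3.SP Pool.Agent.TH119.MX Pool.Agent.R917 Pool.Agent.N208.AM Pool.Agent.N208.AD
  Pool.Agent.N208.BT Pool.Agent.N208.LC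

variable {g : ℕ} {A : AbVar g} {z : Module.End ℚ A.H1}

/-- `i b` or `- i b` is an eigenvalue on the tangent space. -/
def IsPl (A : AbVar g) (z : Module.End ℚ A.H1) (b : ℝ) : Prop :=
  (∃ x, x ≠ 0 ∧ Eig A z b x) ∨ ∃ x, x ≠ 0 ∧ Eig A z (-b) x

theorem aeval_conj (b : ℝ) (q : ℚ[X]) : aeval (((-b : ℝ) : ℂ) * Complex.I) q =
    (starRingEnd ℂ) (aeval ((b : ℂ) * Complex.I) q) := by
  have h1 : (((-b : ℝ) : ℂ) * Complex.I) = (starRingEnd ℂ) ((b : ℂ) * Complex.I) := by
    rw [map_mul, Complex.conj_ofReal, Complex.conj_I]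
    push_cast
    ring
  rw [h1]
  exact Polynomial.aeval_algHom_apply (Complex.conjAe.toAlgHom.restrictScalars ℚ)
      ((b : ℂ) * Complex.I) q

theorem pl_zero (hz : z ∈ A.EA) {b : ℝ} (hb : IsPl A z b) {q : ℚ[X]} (hq : aeval z q = 0) :
    aeval ((b : ℂ) * Complex.I) q = 0 := by
  have key : ∀ b : ℝ, (∃ x, x ≠ 0 ∧ Eig A z b x) → aeval ((b : ℂ) * Complex.I) q = 0 := by
    rintro b ⟨x, hx, hxe⟩
    have h1 := ext_eig hz hxe q
    rw [hq, Pool.Agent.N208.AD.ext_zero, LinearMap.zero_apply] at h1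
    exact (smul_eq_zero.1 h1.symm).resolve_right hx
  rcases hb with hb | hb
  · exact key b hb
  · have h1 := key _ hb
    rw [aeval_conj] at h1
    exact (map_eq_zero _).1 h1

theorem zero_pl (hz : z ∈ A.EA) (field : ∀ q : ℚ[X], aeval z q ≠ 0 → Function.Injective (aeval z q))
    {b : ℝ} (hb : IsPl A z b) {q : ℚ[X]} (hq : aeval ((b : ℂ) * Complex.I) q = 0) :
    aeval z q = 0 := by
  by_contra h0
  obtain ⟨c, hc, hqc⟩ := inv_of_field z field (aeval z q)
    (by
      rw [Subalgebra.mem_toSubmodule, Algebra.adjoin_singleton_eq_range_aeval]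
      exact ⟨q, rfl⟩) h0
  rw [Subalgebra.mem_toSubmodule, Algebra.adjoin_singleton_eq_range_aeval] at hc
  obtain ⟨p, hp⟩ := hc
  have hp' : aeval z p = c := hp
  have h1 : aeval z (q * p - 1) = 0 := by rw [map_sub, map_mul, map_one, hp', hqc, sub_self]
  have h2 := pl_zero hz hb h1
  rw [map_sub, map_mul, map_one, hq, zero_mul, zero_sub] at h2
  exact one_ne_zero (neg_eq_zero.1 h2)

theorem comp_sq {R : Type} [Ring R] [Algebra ℚ R] (u : R) (p : ℚ[X]) :
    aeval u (p.comp (X ^ 2)) = aeval (u * u) p := by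
  rw [aeval_comp, map_pow, aeval_X, pow_two]

/-! ### Symmetric polynomials -/

theorem parity {R : Type} [Ring R] [Algebra ℚ R] (u : R) (q : ℚ[X]) :
    ∃ p r : ℚ[X], aeval u q = aeval (u * u) p + u * aeval (u * u) r := by
  induction q using Polynomial.induction_on' with
  | add p q hp hq =>
    obtain ⟨p1, r1, h1⟩ := hp
    obtain ⟨p2, r2, h2⟩ := hq
    exact ⟨p1 + p2, r1 + r2, by rw [map_add, h1, h2, map_add, map_add, mul_add]; abel⟩
  | monomial n a =>
    have hsq : ∀ k : ℕ, (u * u) ^ k = u ^ (2 * k) := fun k => by rw [← pow_two, ← pow_mul]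
    rcases Nat.even_or_odd' n with ⟨k, rfl | rfl⟩
    · refine ⟨monomial k a, 0, ?_⟩
      rw [aeval_monomial, aeval_monomial, map_zero, mul_zero, add_zero, hsq]
    · refine ⟨0, monomial k a, ?_⟩
      rw [aeval_monomial, aeval_monomial, map_zero, zero_add, hsq, ← Algebra.smul_def,
        ← Algebra.smul_def, mul_smul_comm, ← pow_succ']

theorem sym_poly {w : Module.End ℚ A.H1} (hw : ∀ u v, A.om (w u) v = A.om u (w v)) (p : ℚ[X])
    (u v : A.H1) : A.om (aeval w p u) v = A.om u (aeval w p v) := by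
  have hpow : ∀ (n : ℕ) (u v : A.H1), A.om ((w ^ n) u) v = A.om u ((w ^ n) v) := by
    intro n
    induction n with
    | zero => intro u v; rfl
    | succ n ih =>
      intro u v
      rw [pow_succ, Module.End.mul_apply, ih, hw, ← Module.End.mul_apply, ← pow_succ', pow_succ]
  induction p using Polynomial.induction_on' with
  | add p q hp hq =>
    rw [map_add, LinearMap.add_apply, LinearMap.add_apply, map_add, LinearMap.add_apply, hp, hq,
      map_add]
  | monomial n a =>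
    rw [aeval_monomial, ← Algebra.smul_def, LinearMap.smul_apply, LinearMap.smul_apply, map_smul,
      LinearMap.smul_apply, hpow, map_smul]

theorem sq_sym (hzs : IsSkew A.om z) (u v : A.H1) :
    A.om ((z * z) u) v = A.om u ((z * z) v) := by
  have e1 := hzs (z u) v
  have e2 := hzs u (z v)
  rw [Module.End.mul_apply, Module.End.mul_apply]
  linarith

/-- Symmetric polynomials in `z` are polynomials in `z ^ 2`. -/
theorem sym_iff (hzs : IsSkew A.om z) (q : ℚ[X])
    (hq : ∀ u v, A.om (aeval z q u) v = A.om u (aeval z q v)) :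
    ∃ p : ℚ[X], aeval z q = aeval (z * z) p := by
  obtain ⟨p, r, h1⟩ := parity z q
  refine ⟨p, ?_⟩
  have h2 : ∀ u v, A.om ((z * aeval (z * z) r) u) v = -A.om u ((z * aeval (z * z) r) v) := by
    intro u v
    have e1 := hzs (aeval (z * z) r u) v
    have e2 := sym_poly (sq_sym hzs) r u (z v)
    have e3 : aeval (z * z) r (z v) = z (aeval (z * z) r v) := by
      have e4 : z * aeval (z * z) r = aeval (z * z) r * z := comm_aeval' (mul_assoc z z z).symm r
      exact (LinearMap.congr_fun e4 v).symm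
    rw [e3] at e2
    rw [Module.End.mul_apply, Module.End.mul_apply, ← e2]
    exact eq_neg_of_add_eq_zero_left e1
  have h3 : z * aeval (z * z) r = 0 := by
    refine LinearMap.ext fun u => A.om_nondeg fun v => ?_
    have e1 := hq u v
    rw [h1, LinearMap.add_apply, LinearMap.add_apply, map_add, LinearMap.add_apply, map_add,
      sym_poly (sq_sym hzs) p u v] at e1
    have e2 := h2 u v
    have e3 := add_left_cancel e1
    linarith
  rw [h1, h3, add_zero]

/-! ### Coprimality -/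

/-- **Sets of places whose number is coprime to the degree of the field are primitive.** -/
theorem prim_of_coprime {Sg : Finset ℝ} (h : H2 A z Sg) (hdisj : ∀ a ∈ Sg, -a ∉ Sg)
    (hc : Nat.Coprime Sg.card (Set.finrank ℚ {X : Module.End ℚ A.H1 |
      (∃ q : ℚ[X], X = aeval z q) ∧ ∀ u v, A.om (X u) v = A.om u (X v)})) : Prim A z Sg := by
  classical
  intro C hC hcl q hqs
  have hz := h.hF.mem
  have hzs := h.hF.skew
  have field := h.hF.field
  have hpl : ∀ a, (a ∈ Sg ∨ -a ∈ Sg) → IsPl A z a := fun a ha => Or.inl ((h.ind a).1 ha).1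
  obtain ⟨al, hal⟩ := h.ne
  obtain ⟨w, hw⟩ : ∃ w, w = z * z := ⟨_, rfl⟩
  obtain ⟨θ, hθ⟩ : ∃ θ : ℂ, θ = ((al : ℂ) * Complex.I) ^ 2 := ⟨_, rfl⟩
  have e1 : ∀ {b : ℝ}, IsPl A z b → ∀ {p : ℚ[X]}, aeval w p = 0 →
      aeval (((b : ℂ) * Complex.I) ^ 2) p = 0 := by
    intro b hb p hp
    rw [pow_two, ← comp_sq]
    refine pl_zero hz hb ?_
    rw [comp_sq, ← hw, hp]
  have e2 : ∀ {b : ℝ}, IsPl A z b → ∀ {p : ℚ[X]}, aeval (((b : ℂ) * Complex.I) ^ 2) p = 0 →
      aeval w p = 0 := by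
    intro b hb p hp
    rw [pow_two, ← comp_sq] at hp
    rw [hw, ← comp_sq]
    exact zero_pl hz field hb hp
  have hint : IsIntegral ℚ w := IsIntegral.of_finite ℚ w
  have hθi : IsIntegral ℚ θ := ⟨minpoly ℚ w, minpoly.monic hint, by
    have h1 := e1 (hpl al (Or.inl hal)) (minpoly.aeval ℚ w)
    rw [← hθ] at h1
    exact h1⟩
  let pb := IntermediateField.adjoin.powerBasis hθi
  have : FiniteDimensional ℚ (IntermediateField.adjoin ℚ {θ}) := pb.finite
  have hgen : pb.gen = IntermediateField.AdjoinSimple.gen ℚ θ := rfl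
  have hmin : minpoly ℚ pb.gen = minpoly ℚ θ := IntermediateField.minpoly_gen ℚ θ
  have hgc : ((pb.gen : IntermediateField.adjoin ℚ {θ}) : ℂ) = θ := by
    rw [hgen]
    exact IntermediateField.AdjoinSimple.coe_gen ℚ θ
  have hyw : aeval w (minpoly ℚ pb.gen) = 0 := by
    rw [hmin]
    refine e2 (hpl al (Or.inl hal)) ?_
    rw [← hθ]
    exact minpoly.aeval ℚ θ
  let ι : IntermediateField.adjoin ℚ {θ} →ₐ[ℚ] Module.End ℚ A.H1 := pb.lift w hyw
  have hιg : ι pb.gen = w := pb.lift_gen w hyw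
  have hιp : ∀ p : ℚ[X], ι (aeval pb.gen p) = aeval w p := fun p => by
    rw [← Polynomial.aeval_algHom_apply, hιg]
  have hne := h.nontrivial
  have hιi : Function.Injective ι := ι.toRingHom.injective
  have hsurj : ∀ x : IntermediateField.adjoin ℚ {θ}, ∃ p : ℚ[X], x = aeval pb.gen p := fun x =>
    pb.exists_eq_aeval' x
  -- the subfield
  let C' : Subalgebra ℚ (IntermediateField.adjoin ℚ {θ}) := C.comap ι
  have hC' : ∀ x, x ∈ C' ↔ ι x ∈ C := fun x => Iff.rfl
  let C'' : IntermediateField ℚ (IntermediateField.adjoin ℚ {θ}) :=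
    C'.toIntermediateField fun x hx =>
      C'.inv_mem_of_algebraic (x := ⟨x, hx⟩) (Algebra.IsAlgebraic.isAlgebraic _)
  have hC'' : ∀ x, x ∈ C'' ↔ ι x ∈ C := fun x => Iff.rfl
  -- the embeddings
  have hy : ∀ a ∈ Sg, aeval (((a : ℂ) * Complex.I) ^ 2) (minpoly ℚ pb.gen) = 0 := fun a ha =>
    e1 (hpl a (Or.inl ha)) hyw
  let T : Finset (IntermediateField.adjoin ℚ {θ} →ₐ[ℚ] ℂ) :=
    Finset.univ.filter fun τ => ∃ a ∈ Sg, τ pb.gen = ((a : ℂ) * Complex.I) ^ 2
  have hT : ∀ τ, τ ∈ T ↔ ∃ a ∈ Sg, τ pb.gen = ((a : ℂ) * Complex.I) ^ 2 := fun τ => by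
    simp only [T, Finset.mem_filter, Finset.mem_univ, true_and]
  have hex : ∀ a ∈ Sg, ∃ τ : IntermediateField.adjoin ℚ {θ} →ₐ[ℚ] ℂ,
      τ pb.gen = ((a : ℂ) * Complex.I) ^ 2 := fun a ha => ⟨pb.lift _ (hy a ha), pb.lift_gen _ _⟩
  choose f hf using hex
  have hcard : Sg.card = T.card := by
    refine Finset.card_bij f ?_ ?_ ?_
    · intro a ha
      rw [hT]
      exact ⟨a, ha, hf a ha⟩
    · intro a ha b hb hab
      have h1 := DFunLike.congr_fun hab pb.gen
      rw [hf, hf] at h1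
      have h2 : (a : ℂ) ^ 2 = (b : ℂ) ^ 2 := by
        linear_combination (-1 : ℂ) * h1 + (((a : ℂ) ^ 2) - ((b : ℂ) ^ 2)) * Complex.I_mul_I
      have h3 : a ^ 2 = b ^ 2 := by exact_mod_cast h2
      rcases sq_eq_sq_iff_eq_or_eq_neg.1 h3 with h4 | h4
      · exact h4
      · exact absurd (h4 ▸ ha : -b ∈ Sg) (hdisj b hb)
    · intro τ hτ
      obtain ⟨a, ha, h1⟩ := (hT τ).1 hτ
      exact ⟨a, ha, pb.algHom_ext ((hf a ha).trans h1.symm)⟩
  -- union of fibres
  have hcl' : ∀ τ ∈ T, ∀ τ' : IntermediateField.adjoin ℚ {θ} →ₐ[ℚ] ℂ, (∀ x ∈ C'', τ' x = τ x) →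
      τ' ∈ T := by
    intro τ hτ τ' hττ
    obtain ⟨a, ha, h1⟩ := (hT τ).1 hτ
    have h2 : aeval (τ' pb.gen) (minpoly ℚ (z * z)) = 0 := by
      rw [Polynomial.aeval_algHom_apply]
      have h3 : aeval pb.gen (minpoly ℚ (z * z)) = 0 := by
        apply hιi
        rw [hιp, map_zero, ← hw]
        exact minpoly.aeval ℚ w
      rw [h3, map_zero]
    obtain ⟨b, hb1, hb2⟩ := exists_place (h.hq (Or.inl hal)) h2
    have h3 := hcl a b (Or.inl ha) hb2 fun r hr => by
      obtain ⟨p, hp⟩ := sym_iff hzs r (hC _ hr).2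
      rw [← hw] at hp
      have h4 : ∀ c : ℝ, IsPl A z c → aeval ((c : ℂ) * Complex.I) r =
          aeval (((c : ℂ) * Complex.I) ^ 2) p := by
        intro c hc
        have h5 : aeval z (r - p.comp (X ^ 2)) = 0 := by
          rw [map_sub, comp_sq, ← hw, hp, sub_self]
        have h6 := pl_zero hz hc h5
        rw [map_sub, comp_sq, ← pow_two, sub_eq_zero] at h6
        exact h6
      rw [h4 a (hpl a (Or.inl ha)), h4 b hb2, ← h1, ← hb1, Polynomial.aeval_algHom_apply,
        Polynomial.aeval_algHom_apply]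
      refine (hττ _ ?_).symm
      rw [hC'', hιp, ← hp]
      exact hr
    rw [hT]
    rcases h3 with h3 | h3
    · exact ⟨b, h3, hb1⟩
    · refine ⟨-b, h3, ?_⟩
      rw [hb1]
      push_cast
      ring
  -- the degree
  have hdeg : Set.finrank ℚ {X : Module.End ℚ A.H1 | (∃ q : ℚ[X], X = aeval z q) ∧
      ∀ u v, A.om (X u) v = A.om u (X v)} = finrank ℚ (IntermediateField.adjoin ℚ {θ}) := by
    have h1 : {X : Module.End ℚ A.H1 | (∃ q : ℚ[X], X = aeval z q) ∧
        ∀ u v, A.om (X u) v = A.om u (X v)} =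
        (LinearMap.range ι.toLinearMap : Set (Module.End ℚ A.H1)) := by
      ext Y
      constructor
      · rintro ⟨⟨r, rfl⟩, hr⟩
        obtain ⟨p, hp⟩ := sym_iff hzs r hr
        rw [← hw] at hp
        refine ⟨aeval pb.gen p, ?_⟩
        rw [hp, ← hιp]
        rfl
      · rintro ⟨x, rfl⟩
        obtain ⟨p, rfl⟩ := hsurj x
        have h2 : ι.toLinearMap (aeval pb.gen p) = aeval w p := hιp p
        rw [h2]
        refine ⟨⟨p.comp (X ^ 2), by rw [comp_sq, ← hw]⟩, fun u v => ?_⟩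
        rw [hw]
        exact sym_poly (sq_sym hzs) p u v
    unfold Set.finrank
    rw [h1, Submodule.span_eq]
    exact LinearMap.finrank_range_of_inj hιi
  rw [hdeg, hcard] at hc
  have htop := eq_top_of_coprime C'' T hcl' hc
  obtain ⟨p, hp⟩ := sym_iff hzs q hqs
  rw [← hw] at hp
  rw [hp, ← hιp, ← hC'', htop]
  exact IntermediateField.mem_top

end Pool.Agent.U400.RT
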