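import Mathlib

set_option autoImplicit false

/-!
# Sets of embeddings which are unions of fibres
-/

open Module

noncomputable section

namespace Pool.Agent.U400.RT

variable {E : Type} [Field E] [Algebra ℚ E] [FiniteDimensional ℚ E]

/-- The number of the extensions of an embedding. -/
theorem card_fibre (C : IntermediateField ℚ E) [DecidableEq (C →ₐ[ℚ] ℂ)] (f : C →ₐ[ℚ] ℂ) :
    (Finset.univ.filter fun τ : E →ₐ[ℚ] ℂ => τ.domRestrict C = f).card = finrank C E := by
  let _ := f.toRingHom.toAlgebra
  have _ : IsScalarTower ℚ C ℂ := IsScalarTower.of_algebraMap_eq fun x => (f.commutes x).symm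
  have _ : FiniteDimensional C E := IntermediateField.finiteDimensional_right C
  rw [← AlgHom.card C E ℂ, ← Fintype.card_subtype]
  refine Fintype.card_congr ?_
  exact
    { toFun := fun τ =>
        { toRingHom := τ.1.toRingHom
          commutes' := fun x => DFunLike.congr_fun τ.2 x }
      invFun := fun σ => ⟨σ.restrictScalars ℚ, AlgHom.ext fun x => σ.commutes x⟩
      left_inv := fun τ => rfl
      right_inv := fun σ => rfl }

/-- **Sets of embeddings which are unions of fibres**: the degree divides the number of elements. -/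
theorem dvd_card (C : IntermediateField ℚ E) (S : Finset (E →ₐ[ℚ] ℂ))
    (hS : ∀ τ ∈ S, ∀ τ' : E →ₐ[ℚ] ℂ, (∀ x ∈ C, τ' x = τ x) → τ' ∈ S) : finrank C E ∣ S.card := by
  classical
  rw [Finset.card_eq_sum_card_image (fun τ : E →ₐ[ℚ] ℂ => τ.domRestrict C) S]
  refine Finset.dvd_sum fun f hf => ?_
  obtain ⟨τ, hτ, rfl⟩ := Finset.mem_image.1 hf
  rw [← card_fibre C (τ.domRestrict C)]
  have h1 : (S.filter fun σ : E →ₐ[ℚ] ℂ => σ.domRestrict C = τ.domRestrict C) =
      Finset.univ.filter fun σ : E →ₐ[ℚ] ℂ => σ.domRestrict C = τ.domRestrict C := by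
    ext σ
    simp only [Finset.mem_filter, Finset.mem_univ, true_and, and_iff_right_iff_imp]
    intro h2
    exact hS τ hτ σ fun x hx => DFunLike.congr_fun h2 (⟨x, hx⟩ : C)
  rw [h1]

/-- If the number of elements of a union of fibres is coprime to the degree, then the subfield is the
whole field. -/
theorem eq_top_of_coprime (C : IntermediateField ℚ E) (S : Finset (E →ₐ[ℚ] ℂ))
    (hS : ∀ τ ∈ S, ∀ τ' : E →ₐ[ℚ] ℂ, (∀ x ∈ C, τ' x = τ x) → τ' ∈ S)
    (hc : Nat.Coprime S.card (finrank ℚ E)) : C = ⊤ := by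
  have h1 := dvd_card C S hS
  have h2 : finrank C E ∣ finrank ℚ E := ⟨finrank ℚ C, by
    rw [mul_comm]
    exact (Module.finrank_mul_finrank ℚ C E).symm⟩
  have h3 : finrank C E = 1 := Nat.eq_one_of_dvd_coprimes hc h1 h2
  exact IntermediateField.finrank_eq_one_iff_eq_top.1 h3

end Pool.Agent.U400.RT
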