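import Pool.Agent.U400.RT.Cen
import Pool.Agent.N383.LCU
import Pool.Agent.N208.LC.Cen
import Pool.Agent.N755.BGWA

set_option autoImplicit false
set_option linter.unusedSectionVars false

/-!
# The degree of the commutant and the dimension of the simple modules
-/

open Module Matrix

noncomputable section

namespace Pool.Agent.U400.RT

open Pool.Agent.Y102 Pool.Agent.W516.DR Pool.Agent.H204R3.GP Pool.Agent.W516.KC
  Pool.Agent.H204R3.SP Pool.Agent.TH119.MX Pool.Agent.R917 Pool.Agent.N208.AM Pool.Agent.N208.AD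
  Pool.Agent.N208.BT Pool.Agent.N208.LC

theorem card_mul_le {V : Type} [AddCommGroup V] [Module ℚ V] [FiniteDimensional ℚ V]
    (F C : Submodule ℚ (Module.End ℚ V)) {r : ℕ} (T : Fin r → Module.End ℚ V)
    (h1 : ∀ a ∈ F, ∀ i, a * T i ∈ C)
    (h2 : ∀ k : Fin r → Module.End ℚ V, (∀ i, k i ∈ F) → ∑ i, k i * T i = 0 → ∀ i, k i = 0) :
    r * finrank ℚ F ≤ finrank ℚ C := by
  let Φ : (Fin r → F) →ₗ[ℚ] C :=
    { toFun := fun k => ⟨∑ i, (k i : Module.End ℚ V) * T i, Submodule.sum_mem _ fun i _ =>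
        h1 _ (k i).2 i⟩
      map_add' := fun a b => Subtype.ext (by
        simp only [Pi.add_apply, Submodule.coe_add, add_mul, Finset.sum_add_distrib])
      map_smul' := fun c a => Subtype.ext (by
        simp only [Pi.smul_apply, Submodule.coe_smul, smul_mul_assoc, Finset.smul_sum,
          RingHom.id_apply]) }
  have hinj : Function.Injective Φ := by
    refine (injective_iff_map_eq_zero Φ).2 fun k hk => ?_
    have h3 : ∑ i, (k i : Module.End ℚ V) * T i = 0 := congrArg Subtype.val hk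
    funext i
    exact Subtype.ext (h2 (fun i => k i) (fun i => (k i).2) h3 i)
  have h5 := LinearMap.finrank_le_finrank_of_injective hinj
  rwa [Module.finrank_pi_fintype, Finset.sum_const, Finset.card_univ, Fintype.card_fin,
    smul_eq_mul] at h5

theorem adj_pos {V : Type} [AddCommGroup V] [Module ℚ V] [FiniteDimensional ℚ V] [Nontrivial V]
    (z : Module.End ℚ V) : 0 < finrank ℚ (Algebra.adjoin ℚ {z}) := finrank_pos

variable {g : ℕ} {A : AbVar g} {z : Module.End ℚ A.H1} {al : ℝ}

section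

variable (h : HQ A z al) {N : ℕ} {sg : Fin N → ℝ} {φ : VN N →ₗ[ℝ] (Fin g → ℂ)}
  (w : WN A z al N sg φ)
  (field : ∀ q : Polynomial ℚ, Polynomial.aeval z q ≠ 0 →
    Function.Injective (Polynomial.aeval z q))

include h w field in
/-- An element of the commutant which vanishes at one place is zero. -/
theorem CB_zero {T : Module.End ℚ A.H1} (hT : T ∈ CB A) (h0 : ∀ x, A.ext T (φ x) = 0) : T = 0 := by
  refine N383.LCU.K h field (w.gen (A.ext T) (fun P hP => ?_) h0)
  rw [← ext_mul, ← ext_mul, hT P hP]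

include w in
theorem mat_un {m m' : MN N} (hm : ∀ x, φ (m *ᵥ x) = φ (m' *ᵥ x)) : m = m' :=
  Matrix.mulVec_injective (funext fun x => w.inj (hm x))

/-- the matrices of the elements of the commutant -/
def CM (A : AbVar g) (φ : VN N →ₗ[ℝ] (Fin g → ℂ)) : Submonoid (MN N) where
  carrier := {m | ∃ T ∈ CB A, ∀ x, A.ext T (φ x) = φ (m *ᵥ x)}
  one_mem' := ⟨1, fun P _ => by rw [one_mul, mul_one], fun x => by
    rw [N383.LCU.ext_one, Matrix.one_mulVec, Module.End.one_apply]⟩
  mul_mem' := by
    rintro a b ⟨T, hT, ha⟩ ⟨T', hT', hb⟩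
    refine ⟨T * T', fun P hP => ?_, fun x => ?_⟩
    · rw [mul_assoc, hT' P hP, ← mul_assoc, hT P hP, mul_assoc]
    · rw [ext_mul, Module.End.mul_apply, hb, ha, Matrix.mulVec_mulVec]

include h w in
theorem span_CM : Submodule.span ℂ (CM A φ : Set (MN N)) = ⊤ := by
  rw [eq_top_iff]
  intro m _
  have h1 : m ∈ Algebra.adjoin ℂ (CM A φ : Set (MN N)) := by
    refine Pool.Agent.N768.BG.burnside_mat w.pos _ (fun U hU => ?_) m
    refine w.simple U fun X hX x hx y hy => ?_
    obtain ⟨m', hm'⟩ := Pool.Agent.N441.BGSJ.mat_NA h w hX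
    have h2 : y = m' *ᵥ x := w.inj (by rw [← hy, hm'])
    rw [h2]
    exact hU m' (Algebra.subset_adjoin ⟨X, fun P hP => A.NA_comm hX hP, hm'⟩) x hx
  rw [← Subalgebra.mem_toSubmodule, Algebra.adjoin_eq_span, Submonoid.closure_eq] at h1
  exact h1

include h w field in
/-- The dimension of the simple modules is at most the degree of the commutant. -/
theorem sq_le (n : ℕ) (hdeg : finrank ℚ (CB A) = n ^ 2 * finrank ℚ (Algebra.adjoin ℚ {z})) :
    N ^ 2 ≤ n ^ 2 := by
  classical
  obtain ⟨r, hr, f, hf1, hf3⟩ : ∃ r : ℕ, r = N ^ 2 ∧ ∃ f : Fin r → MN N,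
      (∀ i, f i ∈ (CM A φ : Set (MN N))) ∧ LinearIndependent ℂ f := by
    obtain ⟨f, hf1, -, hf3⟩ := Submodule.exists_fun_fin_finrank_span_eq ℂ (CM A φ : Set (MN N))
    refine ⟨_, ?_, f, hf1, hf3⟩
    rw [span_CM h w, finrank_top, Module.finrank_matrix, Fintype.card_fin, Module.finrank_self,
      mul_one, pow_two]
  choose T hT hTm using hf1
  have hFm : ∀ a, a ∈ (Algebra.adjoin ℚ {z}).toSubmodule ↔
      ∃ q : Polynomial ℚ, a = Polynomial.aeval z q := by
    intro a
    rw [Subalgebra.mem_toSubmodule, Algebra.adjoin_singleton_eq_range_aeval]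
    exact ⟨fun ⟨q, hq⟩ => ⟨q, hq.symm⟩, fun ⟨q, hq⟩ => ⟨q, hq.symm⟩⟩
  have hFC : ∀ a ∈ (Algebra.adjoin ℚ {z}).toSubmodule, a ∈ CB A := by
    intro a ha P hP
    obtain ⟨q, rfl⟩ := (hFm a).1 ha
    exact (comm_aeval' (h.cen P hP).symm q).symm
  have h5 := card_mul_le (Algebra.adjoin ℚ {z}).toSubmodule (CB A) T
    (fun a ha i P hP => by
      rw [mul_assoc, hT i P hP, ← mul_assoc, hFC _ ha P hP, mul_assoc]) fun k hk h1 => by
    have h2 : ∀ i, ∃ q : Polynomial ℚ, k i = Polynomial.aeval z q :=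
      fun i => (hFm _).1 (hk i)
    choose q hq using h2
    have h3 : ∑ i, Polynomial.aeval ((al : ℂ) * Complex.I) (q i) • f i = 0 := by
      refine mat_un w fun x => ?_
      have h4 : A.ext (∑ i, k i * T i) (φ x) =
          ∑ i, φ ((Polynomial.aeval ((al : ℂ) * Complex.I) (q i) • f i) *ᵥ x) := by
        have e0 : ∀ s : Finset (Fin r), A.ext (∑ i ∈ s, k i * T i) (φ x) =
          ∑ i ∈ s, φ ((Polynomial.aeval ((al : ℂ) * Complex.I) (q i) • f i) *ᵥ x) := by
          intro s
          induction s using Finset.induction_on with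
          | empty => rw [Finset.sum_empty, Finset.sum_empty, ext_zero, LinearMap.zero_apply]
          | insert i s hi ih =>
            rw [Finset.sum_insert hi, Finset.sum_insert hi, ext_add, LinearMap.add_apply, ih,
              ext_mul, Module.End.mul_apply, hTm, hq i, N768.BGPD.ext_aeval h w,
              Matrix.smul_mulVec]
        exact e0 _
      rw [h1, ext_zero, LinearMap.zero_apply, ← map_sum] at h4
      rw [Matrix.zero_mulVec, map_zero, Matrix.sum_mulVec]
      exact h4.symm
    rw [Fintype.linearIndependent_iff] at hf3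
    have h4 := hf3 _ h3
    intro i
    refine CB_zero h w field (hFC _ (hk i)) fun x => ?_
    rw [hq i, N768.BGPD.ext_aeval h w, h4 i, zero_smul, map_zero]
  rw [hr, hdeg] at h5
  have h7 : 0 < finrank ℚ (Algebra.adjoin ℚ {z}) := by
    have : Nontrivial A.H1 := by
      by_contra hcon
      rw [not_nontrivial_iff_subsingleton] at hcon
      obtain ⟨x, hx, hx0⟩ := h.ex
      have h8 : (1 : Module.End ℝ (Fin g → ℂ)) = 0 := A.ext_per fun u => by
        rw [Subsingleton.elim u 0, map_zero, map_zero, map_zero]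
      exact hx0 (LinearMap.congr_fun h8 x)
    exact adj_pos z
  exact Nat.le_of_mul_le_mul_right h5 h7

end

end Pool.Agent.U400.RT
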