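import Pool.Agent.U400.RT.Full
import Pool.Agent.U400.RT.Count

set_option autoImplicit false
set_option linter.unusedSectionVars false

/-!
# All roots of the minimal polynomial of `z ^ 2` come from eigenvalues on the tangent space
-/

open Module Matrix Polynomial

noncomputable section

namespace Pool.Agent.U400.RT

open Pool.Agent.Y102 Pool.Agent.W516.DR Pool.Agent.H204R3.GP Pool.Agent.W516.KC
  Pool.Agent.H204R3.SP Pool.Agent.TH119.MX Pool.Agent.R917 Pool.Agent.N208.AM Pool.Agent.N208.AD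
  Pool.Agent.N208.BT Pool.Agent.N208.LC

variable {g : ℕ} {A : AbVar g} {z : Module.End ℚ A.H1} {al : ℝ}

/-- The degree of a real polynomial which annihilates the real extension. -/
theorem deg_le {w : Module.End ℚ A.H1} {P : ℝ[X]} (hP0 : P ≠ 0) (hP : aeval (A.ext w) P = 0) :
    (minpoly ℚ w).natDegree ≤ P.natDegree := by
  have hint : IsIntegral ℚ w := IsIntegral.of_finite ℚ w
  have hf0 : minpoly ℚ w ≠ 0 := minpoly.ne_zero hint
  obtain ⟨lam, hlam⟩ : ∃ lam : ℝ →ₗ[ℚ] ℚ, lam P.leadingCoeff ≠ 0 := by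
    by_contra hcon
    push Not at hcon
    exact hP0 (leadingCoeff_eq_zero.1 (exists_sep hcon))
  obtain ⟨q, hq⟩ : ∃ q : ℚ[X], q = ∑ k ∈ Finset.range (P.natDegree + 1),
    monomial k (lam (P.coeff k)) := ⟨_, rfl⟩
  have hqz : ∀ v, aeval w q v =
      ∑ k ∈ Finset.range (P.natDegree + 1), lam (P.coeff k) • (w ^ k) v := by
    intro v
    rw [hq, map_sum, LinearMap.sum_apply]
    refine Finset.sum_congr rfl fun k _ => ?_
    rw [aeval_monomial, ← Algebra.smul_def, LinearMap.smul_apply]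
  have hyq : aeval w q = 0 := by
    refine LinearMap.ext fun v => ?_
    have h1 : A.cmp lam (aeval (A.ext w) P (A.per v)) = 0 := by
      rw [hP, LinearMap.zero_apply, map_zero]
    rw [N9.BTK.aeval_per, map_sum] at h1
    rw [hqz]
    simp only [A.cmp_smul_per] at h1
    exact h1
  have hq0 : q.coeff P.natDegree ≠ 0 := by
    rw [hq, finsetSum_coeff, Finset.sum_eq_single P.natDegree]
    · rw [coeff_monomial, if_pos rfl]
      exact hlam
    · intro k _ hk
      rw [coeff_monomial, if_neg hk]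
    · intro h1
      exact absurd (Finset.self_mem_range_succ _) h1
  have hqne : q ≠ 0 := by
    intro h1
    rw [h1] at hq0
    exact hq0 (coeff_zero _)
  have hqd : q.degree ≤ P.natDegree := by
    rw [hq]
    refine (degree_sum_le _ _).trans ?_
    refine Finset.sup_le fun k hk => ?_
    refine (degree_monomial_le _ _).trans ?_
    have := Finset.mem_range.1 hk
    exact_mod_cast (show k ≤ P.natDegree by omega)
  have h2 := minpoly.degree_le_of_ne_zero ℚ w hqne hyq
  rw [degree_eq_natDegree hf0] at h2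
  exact_mod_cast h2.trans hqd

open Pool.Agent.N755.BGWA in
/-- **All roots of the minimal polynomial of `z ^ 2` come from places.** -/
theorem exists_place (h : HQ A z al) {ω : ℂ} (hω : aeval ω (minpoly ℚ (z * z)) = 0) :
    ∃ b : ℝ, ω = ((b : ℂ) * Complex.I) ^ 2 ∧
      ((∃ x, x ≠ 0 ∧ Eig A z b x) ∨ ∃ x, x ≠ 0 ∧ Eig A z (-b) x) := by
  classical
  obtain ⟨S, hSd⟩ : ∃ S, S = A.ext z * A.ext z := ⟨_, rfl⟩
  have hSw : A.ext (z * z) = S := by rw [hSd, Pool.Agent.N208.AD.ext_mul]
  have hSx : ∀ x, S x = A.ext z (A.ext z x) := fun x => by rw [hSd]; rfl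
  have hS : ∀ u v, A.PF (S u) v = A.PF u (S v) := by
    intro u v
    rw [hSx, hSx, zPF h, zPF h, neg_neg]
  obtain ⟨u, c, hu⟩ := N383.LCU.exists_eig S hS
  have hint : IsIntegral ℚ (z * z) := IsIntegral.of_finite ℚ _
  obtain ⟨μ, hμ⟩ : ∃ μ, μ = minpoly ℚ (z * z) := ⟨_, rfl⟩
  have hμ0 : μ ≠ 0 := by rw [hμ]; exact minpoly.ne_zero hint
  have hμz : aeval (z * z) μ = 0 := by rw [hμ]; exact minpoly.aeval ℚ _
  rw [← hμ] at hω
  have heig : ∀ (p : ℝ[X]) (j), aeval S p (u j) = p.eval (c j) • u j := by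
    intro p j
    exact Module.End.aeval_apply_of_hasEigenvector
        ⟨Module.End.mem_eigenspace_iff.2 (hu j), u.ne_zero j⟩
  -- the polynomial of the eigenvalues
  obtain ⟨ν, hν⟩ : ∃ ν : ℝ[X], ν = ∏ t ∈ Finset.univ.image c, (X - C t) := ⟨_, rfl⟩
  have hν0 : ν ≠ 0 := by
    rw [hν, Finset.prod_ne_zero_iff]
    intro t _
    exact X_sub_C_ne_zero t
  have hνd : ν.natDegree = (Finset.univ.image c).card := by
    rw [hν, natDegree_prod _ _ fun t _ => X_sub_C_ne_zero t]
    simp
  have hνS : aeval S ν = 0 := by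
    refine u.ext fun j => ?_
    rw [heig, LinearMap.zero_apply]
    have h1 : ν.eval (c j) = 0 := by
      rw [hν, eval_prod]
      refine Finset.prod_eq_zero (Finset.mem_image_of_mem c (Finset.mem_univ j)) ?_
      rw [eval_sub, eval_X, eval_C, sub_self]
    rw [h1, zero_smul]
  have hd : μ.natDegree ≤ (Finset.univ.image c).card := by
    rw [← hνd, hμ]
    exact deg_le hν0 (by rw [hSw]; exact hνS)
  -- the eigenvalues are roots
  have hroot : ∀ j, aeval ((c j : ℝ) : ℂ) μ = 0 := by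
    intro j
    have h1 : aeval S (μ.map (algebraMap ℚ ℝ)) = 0 := by
      rw [← hSw, ← N9.BTK.ext_aeval, hμz, Pool.Agent.N208.AD.ext_zero]
    have h2 := heig (μ.map (algebraMap ℚ ℝ)) j
    rw [h1, LinearMap.zero_apply] at h2
    have h3 := (smul_eq_zero.1 h2.symm).resolve_right (u.ne_zero j)
    have h4 : aeval (c j) μ = 0 := by
      rw [eval_map] at h3
      exact h3
    have h5 : aeval ((c j : ℝ) : ℂ) μ = ((aeval (c j) μ : ℝ) : ℂ) := by
      have h6 := Polynomial.aeval_algebraMap_apply ℂ (c j) μ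
      exact h6
    rw [h5, h4, Complex.ofReal_zero]
  have hsub : (Finset.univ.image c).image (fun t : ℝ => (t : ℂ)) ⊆ (μ.aroots ℂ).toFinset := by
    intro t ht
    obtain ⟨s, hs, rfl⟩ := Finset.mem_image.1 ht
    obtain ⟨j, -, rfl⟩ := Finset.mem_image.1 hs
    rw [Multiset.mem_toFinset, mem_aroots]
    exact ⟨hμ0, hroot j⟩
  have hcard : (μ.aroots ℂ).toFinset.card ≤ μ.natDegree := by
    refine (Multiset.toFinset_card_le _).trans ?_
    refine (card_roots' _).trans ?_
    exact natDegree_map_le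
  have heq : (Finset.univ.image c).image (fun t : ℝ => (t : ℂ)) = (μ.aroots ℂ).toFinset := by
    refine Finset.eq_of_subset_of_card_le hsub ?_
    rw [Finset.card_image_of_injective _ Complex.ofReal_injective]
    exact hcard.trans hd
  have hωm : ω ∈ (Finset.univ.image c).image (fun t : ℝ => (t : ℂ)) := by
    rw [heq, Multiset.mem_toFinset, mem_aroots]
    exact ⟨hμ0, hω⟩
  obtain ⟨s, hs, rfl⟩ := Finset.mem_image.1 hωm
  obtain ⟨j, -, rfl⟩ := Finset.mem_image.1 hs
  have hcj : c j ≤ 0 := by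
    have h1 := A.PF_pos (u.ne_zero j)
    have h2 : A.PF (S (u j)) (u j) = -A.PF (A.ext z (u j)) (A.ext z (u j)) := by
      rw [hSx, zPF h]
    rw [hu, map_smul, LinearMap.smul_apply, smul_eq_mul] at h2
    have h3 := N383.LCU.PF_nonneg (A := A) (A.ext z (u j))
    by_contra hcon
    push Not at hcon
    have := mul_pos hcon h1
    linarith
  obtain ⟨b, hb⟩ : ∃ b : ℝ, b = Real.sqrt (-c j) := ⟨_, rfl⟩
  have hb2 : b ^ 2 = -c j := by rw [hb]; exact Real.sq_sqrt (by linarith)
  obtain ⟨x, hx⟩ : ∃ x, x = u j := ⟨_, rfl⟩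
  have hx0 : x ≠ 0 := by rw [hx]; exact u.ne_zero j
  have hzz : A.ext z (A.ext z x) = -((b ^ 2) • x) := by
    rw [← hSx, hx, hu, hb2, neg_smul, neg_neg]
  have hC : ∀ (c : ℂ) (x : Fin g → ℂ), A.ext z (c • x) = c • A.ext z x := fun c x =>
    AbVar.CR_complex A.endAlg (Submodule.subset_span ⟨z, h.mem, rfl⟩) c x
  refine ⟨b, ?_, ?_⟩
  · have h1 : ((c j : ℝ) : ℂ) = -((b : ℂ) ^ 2) := by
      have h2 : c j = -(b ^ 2) := by linarith
      rw [h2]
      push_cast
      ring
    rw [h1]
    linear_combination (-((b : ℂ) ^ 2)) * Complex.I_mul_I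
  · have h2 : (b ^ 2) • x = ((b : ℂ) ^ 2) • x := by
      rw [← Complex.coe_smul]
      push_cast
      rfl
    by_cases h0 : A.ext z x + ((b : ℂ) * Complex.I) • x = 0
    · right
      refine ⟨x, hx0, ?_⟩
      change A.ext z x = _
      rw [eq_neg_of_add_eq_zero_left h0, ← neg_smul]
      congr 1
      push_cast
      ring
    · left
      refine ⟨_, h0, ?_⟩
      change A.ext z _ = _
      rw [map_add, hC, hzz, h2, smul_add, smul_smul, add_comm, ← neg_smul]
      congr 2
      linear_combination (-((b : ℂ) ^ 2)) * Complex.I_mul_I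

end Pool.Agent.U400.RT
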